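import Mathlib

set_option autoImplicit false

namespace Pool.Agent.H46.ET

open Finset

/-- The elements of `X` satisfying `P`. -/
noncomputable def fl {α : Type} (X : Finset α) (P : α → Prop) : Finset α :=
  @Finset.filter α P (fun _ => Classical.propDecidable _) X

@[simp] lemma mem_fl {α : Type} {X : Finset α} {P : α → Prop} {a : α} :
    a ∈ fl X P ↔ a ∈ X ∧ P a := by
  unfold fl
  exact @mem_filter α P (fun _ => Classical.propDecidable _) X a

/-- A family of bounded bases of the integers modulo `p ^ 2`, indexed by shifts `σ < p`. -/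
structure Sys (p : ℕ) (g : ℕ → ℤ → Prop) : Prop where
  per : ∀ σ a b, a ≡ b [ZMOD ((p : ℤ) ^ 2)] → g σ a → g σ b
  prob : ∀ a, (fl (range p) fun σ => g σ a).card ≤ 8
  dens : ∀ σ, (fl (Ico (0 : ℤ) ((p : ℤ) ^ 2)) fun a => g σ a).card ≤ 8 * p
  low : ∀ σ σ' n, ∃ a, g σ a ∧ g σ' (n - a)
  up : ∀ σ σ' n, (fl (Ico (0 : ℤ) ((p : ℤ) ^ 2)) fun a => g σ a ∧ g σ' (n - a)).card ≤ 1024

lemma good_nonsquare (p : ℕ) [Fact p.Prime] (hp : 7 < p) :
    ∃ ν : ZMod p, ¬ IsSquare ν ∧ ν ≠ 2 ∧ ν ≠ -2 ∧ ν ≠ 3 := by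
  have hne : ∀ k : ℕ, 0 < k → k < p → (k : ZMod p) ≠ 0 := fun k h0 h1 h => by
    rw [ZMod.natCast_eq_zero_iff] at h
    exact absurd (Nat.le_of_dvd h0 h) (by omega)
  have h2 : (2 : ZMod p) ≠ 0 := by exact_mod_cast hne 2 (by norm_num) (by omega)
  have h3 : (3 : ZMod p) ≠ 0 := by exact_mod_cast hne 3 (by norm_num) (by omega)
  have h5 : (5 : ZMod p) ≠ 0 := by exact_mod_cast hne 5 (by norm_num) (by omega)
  have h7 : (7 : ZMod p) ≠ 0 := by exact_mod_cast hne 7 (by norm_num) (by omega)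
  obtain ⟨ν, hν⟩ := FiniteField.exists_nonsquare (F := ZMod p) (by
    rw [ZMod.ringChar_zmod_n]; omega)
  have hν0 : ν ≠ 0 := by rintro rfl; exact hν IsSquare.zero
  have hm : ∀ c : ZMod p, c ≠ 0 → ¬ IsSquare (c ^ 2 * ν) := by
    rintro c hc ⟨r, hr⟩
    exact hν ⟨r / c, by field_simp; linear_combination hr⟩
  by_contra hcon
  push Not at hcon
  have key : ∀ c : ZMod p, c ≠ 0 → c ^ 2 * ν ∈ ({2, -2, 3} : Finset (ZMod p)) := by
    intro c hc
    by_cases a : c ^ 2 * ν = 2
    · simp [a]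
    by_cases b : c ^ 2 * ν = -2
    · simp [b]
    simp [hcon _ (hm c hc) a b]
  have h4 : (4 : ZMod p) ≠ 0 := by
    have := mul_ne_zero h2 h2; norm_num at this; exact this
  have hsub : ({1 ^ 2 * ν, 2 ^ 2 * ν, 3 ^ 2 * ν, 4 ^ 2 * ν} : Finset (ZMod p)) ⊆ {2, -2, 3} := by
    intro x hx
    simp only [mem_insert, mem_singleton] at hx
    rcases hx with rfl | rfl | rfl | rfl
    exacts [key _ one_ne_zero, key _ h2, key _ h3, key _ h4]
  have hc := card_le_card hsub
  have hc3 : ({2, -2, 3} : Finset (ZMod p)).card ≤ 3 := card_le_three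
  have d : ∀ a b c : ZMod p, c ≠ 0 → b ^ 2 - a ^ 2 = c → a ^ 2 * ν ≠ b ^ 2 * ν := by
    intro a b c hc h e
    apply mul_ne_zero hc hν0
    rw [← h]; linear_combination -e
  have d12 := d 1 2 3 h3 (by norm_num)
  have d13 := d 1 3 (2 * 4) (mul_ne_zero h2 h4) (by norm_num)
  have d14 := d 1 4 (3 * 5) (mul_ne_zero h3 h5) (by norm_num)
  have d23 := d 2 3 5 h5 (by norm_num)
  have d24 := d 2 4 (3 * 4) (mul_ne_zero h3 h4) (by norm_num)
  have d34 := d 3 4 7 h7 (by norm_num)
  rw [card_insert_of_notMem (by simp only [mem_insert, mem_singleton]; tauto),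
    card_insert_of_notMem (by simp only [mem_insert, mem_singleton]; tauto),
    card_pair d34] at hc
  omega

lemma quad_card (p : ℕ) [Fact p.Prime] (l m a b : ZMod p) (h : l + m ≠ 0) :
    (univ.filter fun x : ZMod p => l * x ^ 2 + m * (a - x) ^ 2 = b).card ≤ 2 := by
  by_contra hc
  obtain ⟨x, y, z, hx, hy, hz, hxy, hxz, hyz⟩ := Finset.two_lt_card_iff.mp (not_le.mp hc)
  simp only [mem_filter, mem_univ, true_and] at hx hy hz
  have e1 : (x - y) * ((l + m) * (x + y) - 2 * m * a) = 0 := by linear_combination hx - hy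
  have e2 : (x - z) * ((l + m) * (x + z) - 2 * m * a) = 0 := by linear_combination hx - hz
  have f1 := (mul_eq_zero.mp e1).resolve_left (sub_ne_zero.mpr hxy)
  have f2 := (mul_eq_zero.mp e2).resolve_left (sub_ne_zero.mpr hxz)
  have : (l + m) * (y - z) = 0 := by linear_combination f1 - f2
  exact hyz (sub_eq_zero.mp ((mul_eq_zero.mp this).resolve_left h))

lemma exists_lam (p : ℕ) [Fact p.Prime] (hp : 7 < p) :
    ∃ Λ : Finset (ZMod p), Λ.card ≤ 4 ∧ (∀ l ∈ Λ, ∀ m ∈ Λ, l + m ≠ 0) ∧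
      ∀ a b : ZMod p, ∃ l ∈ Λ, ∃ m ∈ Λ, ∃ x, l * x ^ 2 + m * (a - x) ^ 2 = b := by
  obtain ⟨ν, hν, n2, nm2, n3⟩ := good_nonsquare p hp
  have hne : ∀ k : ℕ, 0 < k → k < p → (k : ZMod p) ≠ 0 := fun k h0 h1 h => by
    rw [ZMod.natCast_eq_zero_iff] at h
    exact absurd (Nat.le_of_dvd h0 h) (by omega)
  have h2 : (2 : ZMod p) ≠ 0 := by exact_mod_cast hne 2 (by norm_num) (by omega)
  have h3 : (3 : ZMod p) ≠ 0 := by exact_mod_cast hne 3 (by norm_num) (by omega)
  have hν0 : ν ≠ 0 := by rintro rfl; exact hν IsSquare.zero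
  have n4 : 4 - ν ≠ 0 := fun h => hν ⟨2, by linear_combination -h⟩
  have a2 : 2 - ν ≠ 0 := fun h => n2 (by linear_combination -h)
  have am2 : 2 + ν ≠ 0 := fun h => nm2 (by linear_combination h)
  have a3 : 3 - ν ≠ 0 := fun h => n3 (by linear_combination -h)
  have z : ∀ x y u v : ZMod p, u ≠ 0 → v ≠ 0 → x + y = u * v → x + y ≠ 0 :=
    fun x y u v hu hv h => h ▸ mul_ne_zero hu hv
  refine ⟨{ν, 2 * (2 - ν), 2 * ν, ν * (2 - ν)}, card_le_four, ?_, ?_⟩
  · intro l hl m hm
    simp only [mem_insert, mem_singleton] at hl hm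
    rcases hl with rfl | rfl | rfl | rfl <;> rcases hm with hm | hm | hm | hm <;> rw [hm]
    · exact z _ _ _ _ h2 hν0 (by ring)
    · exact z _ _ _ _ n4 one_ne_zero (by ring)
    · exact z _ _ _ _ h3 hν0 (by ring)
    · exact z _ _ _ _ a3 hν0 (by ring)
    · exact z _ _ _ _ n4 one_ne_zero (by ring)
    · exact z _ _ _ _ (mul_ne_zero h2 h2) a2 (by ring)
    · exact z _ _ _ _ h2 h2 (by ring)
    · exact z _ _ _ _ a2 am2 (by ring)
    · exact z _ _ _ _ h3 hν0 (by ring)
    · exact z _ _ _ _ h2 h2 (by ring)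
    · exact z _ _ _ _ (mul_ne_zero h2 h2) hν0 (by ring)
    · exact z _ _ _ _ n4 hν0 (by ring)
    · exact z _ _ _ _ a3 hν0 (by ring)
    · exact z _ _ _ _ a2 am2 (by ring)
    · exact z _ _ _ _ n4 hν0 (by ring)
    · exact z _ _ _ _ (mul_ne_zero h2 a2) hν0 (by ring)
  · intro a b
    have sol : ∀ l m : ZMod p, l + m ≠ 0 → IsSquare ((l + m) * b - l * m * a ^ 2) →
        ∃ x, l * x ^ 2 + m * (a - x) ^ 2 = b := by
      rintro l m h ⟨r, hr⟩
      refine ⟨(m * a + r) / (l + m), ?_⟩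
      field_simp
      linear_combination (-(l + m)) * hr
    by_cases hs : IsSquare ((ν + 2 * (2 - ν)) * b - ν * (2 * (2 - ν)) * a ^ 2)
    · exact ⟨ν, by simp, 2 * (2 - ν), by simp, sol _ _ (z _ _ _ _ n4 one_ne_zero (by ring)) hs⟩
    · refine ⟨2 * ν, by simp, ν * (2 - ν), by simp, sol _ _ (z _ _ _ _ n4 hν0 (by ring)) ?_⟩
      have e : (2 * ν + ν * (2 - ν)) * b - 2 * ν * (ν * (2 - ν)) * a ^ 2 =
          ν * ((ν + 2 * (2 - ν)) * b - ν * (2 * (2 - ν)) * a ^ 2) := by ring
      rw [e]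
      have q1 := quadraticChar_neg_one_iff_not_isSquare.mpr hν
      have q2 := quadraticChar_neg_one_iff_not_isSquare.mpr hs
      by_contra q3
      have q4 := quadraticChar_neg_one_iff_not_isSquare.mpr q3
      rw [map_mul, q1, q2] at q4
      norm_num at q4

lemma exists_sys (p : ℕ) (hpp : p.Prime) (hp : 7 < p) : ∃ g, Sys p g := by
  have := Fact.mk hpp
  obtain ⟨Λ, hΛ, hsum, hsol⟩ := exists_lam p hp
  have hp0 : (0 : ℤ) < p := by exact_mod_cast hpp.pos
  set V : ZMod p → Finset (ZMod p) := fun x =>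
    (Λ ×ˢ ({0, 1} : Finset (ZMod p))).image fun q => q.1 * x ^ 2 - q.2 with hV
  have hVc : ∀ x, (V x).card ≤ 8 := fun x => by
    refine card_image_le.trans ?_
    rw [card_product]
    have : ({0, 1} : Finset (ZMod p)).card ≤ 2 := card_le_two
    nlinarith
  set φ : ℤ → ZMod p × ZMod p := fun a => ((a : ZMod p), ((a / p : ℤ) : ZMod p)) with hφ
  have hφinj : Set.InjOn φ (Ico (0 : ℤ) ((p : ℤ) ^ 2) : Finset ℤ) := by
    intro a ha b hb hab
    simp only [coe_Ico, Set.mem_Ico] at ha hb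
    simp only [hφ, Prod.mk.injEq] at hab
    obtain ⟨h1, h2⟩ := hab
    rw [ZMod.intCast_eq_intCast_iff'] at h1 h2
    have a1 : a / p < p := Int.ediv_lt_of_lt_mul hp0 (by nlinarith)
    have b1 : b / p < p := Int.ediv_lt_of_lt_mul hp0 (by nlinarith)
    rw [Int.emod_eq_of_lt (Int.ediv_nonneg ha.1 hp0.le) a1,
      Int.emod_eq_of_lt (Int.ediv_nonneg hb.1 hp0.le) b1] at h2
    rw [← Int.emod_add_mul_ediv a p, ← Int.emod_add_mul_ediv b p, h1, h2]
  have hcount : ∀ (σ : ℕ) (P : ℤ → Prop) (U : Finset (ZMod p)),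
      (∀ a, P a → ((a / p : ℤ) : ZMod p) + σ ∈ V a ∧ (a : ZMod p) ∈ U) →
      (fl (Ico (0 : ℤ) ((p : ℤ) ^ 2)) P).card ≤ U.card * 8 := by
    intro σ P U h
    calc _ ≤ (U.biUnion fun x => (V x).image fun y : ZMod p => (x, y - (σ : ZMod p))).card := by
          refine card_le_card_of_injOn φ (fun a ha => ?_)
            (hφinj.mono (by intro a ha; exact (mem_fl.mp ha).1))
          have := h a (mem_fl.mp ha).2
          simp only [coe_biUnion, coe_image, Set.mem_iUnion, Set.mem_image, mem_coe]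
          exact ⟨a, this.2, _, this.1, by simp [hφ]⟩
      _ ≤ _ := card_biUnion_le_card_mul _ _ _ fun x _ => card_image_le.trans (hVc x)
  have hcarry : ∀ n a : ℤ, (n - a) / p + a / p = n / p ∨ (n - a) / p + a / p = n / p - 1 := by
    intro n a
    have e1 := Int.emod_add_mul_ediv n p
    have e2 := Int.emod_add_mul_ediv a p
    have e3 := Int.emod_add_mul_ediv (n - a) p
    have := Int.emod_nonneg n hp0.ne'
    have := Int.emod_nonneg a hp0.ne'
    have := Int.emod_nonneg (n - a) hp0.ne'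
    have := Int.emod_lt_of_pos n hp0
    have := Int.emod_lt_of_pos a hp0
    have := Int.emod_lt_of_pos (n - a) hp0
    have k1 : (n - a) / p + a / p - n / p < 1 := by
      by_contra hc; push Not at hc; nlinarith
    have k2 : -2 < (n - a) / p + a / p - n / p := by
      by_contra hc; push Not at hc; nlinarith
    omega
  refine ⟨fun σ a => ((a / p : ℤ) : ZMod p) + σ ∈ V a, ⟨?_, ?_, ?_, ?_, ?_⟩⟩
  · intro σ a b hab h
    obtain ⟨c, hc⟩ := hab.dvd
    have hb : b = a + p * (p * c) := by linear_combination hc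
    rw [hb, Int.add_mul_ediv_left _ _ hp0.ne']
    simpa using h
  · intro a
    refine le_trans (card_le_card_of_injOn (fun σ : ℕ => ((a / p : ℤ) : ZMod p) + σ)
      (fun σ hσ => (mem_fl.mp hσ).2) ?_) (hVc a)
    intro x hx y hy hxy
    have hx := mem_range.mp (mem_fl.mp hx).1
    have hy := mem_range.mp (mem_fl.mp hy).1
    have := add_left_cancel hxy
    rwa [ZMod.natCast_eq_natCast_iff', Nat.mod_eq_of_lt hx, Nat.mod_eq_of_lt hy] at this
  · intro σ
    have := hcount σ (fun a => ((a / p : ℤ) : ZMod p) + σ ∈ V a) univ fun a h => ⟨h, mem_univ _⟩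
    simpa [mul_comm] using this
  · intro σ σ' n
    obtain ⟨l, hl, m, hm, x, hx⟩ := hsol n (((n / p : ℤ) : ZMod p) + σ + σ')
    obtain ⟨x, rfl⟩ := ZMod.intCast_surjective x
    obtain ⟨y, hy⟩ := ZMod.intCast_surjective
      (l * (x : ZMod p) ^ 2 - (σ : ZMod p) - ((x / p : ℤ) : ZMod p))
    have e1 : (((x + p * y) / p : ℤ) : ZMod p) + σ = l * (x : ZMod p) ^ 2 := by
      rw [Int.add_mul_ediv_left _ _ hp0.ne']
      push_cast
      rw [hy]; ring
    have e2 : ((x + p * y : ℤ) : ZMod p) = x := by simp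
    refine ⟨x + p * y, ?_, ?_⟩
    · rw [e1, e2]
      exact mem_image.mpr ⟨(l, 0), by simp [hl], by simp⟩
    · have e3 : ((n - (x + p * y) : ℤ) : ZMod p) = n - x := by simp
      rw [e3]
      rcases hcarry n (x + p * y) with h | h
      · have := congrArg (fun z : ℤ => (z : ZMod p)) h
        simp only [Int.cast_add] at this
        exact mem_image.mpr ⟨(m, 0), by simp [hm], by
          simp only; linear_combination hx - this + e1⟩
      · have := congrArg (fun z : ℤ => (z : ZMod p)) h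
        simp only [Int.cast_add, Int.cast_sub, Int.cast_one] at this
        exact mem_image.mpr ⟨(m, 1), by simp [hm], by
          simp only; linear_combination hx - this + e1⟩
  · intro σ σ' n
    set U := ((Λ ×ˢ Λ) ×ˢ ({-1, 0, 1, 2} : Finset (ZMod p))).biUnion fun q =>
      univ.filter fun x : ZMod p => q.1.1 * x ^ 2 + q.1.2 * (n - x) ^ 2 =
        ((n / p : ℤ) : ZMod p) + σ + σ' + q.2 with hU
    have hUc : U.card ≤ 128 := by
      refine (card_biUnion_le_card_mul _ _ 2 fun q hq => ?_).trans ?_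
      · simp only [mem_product] at hq
        exact quad_card p _ _ _ _ (hsum _ hq.1.1 _ hq.1.2)
      · rw [card_product, card_product]
        have : ({-1, 0, 1, 2} : Finset (ZMod p)).card ≤ 4 := card_le_four
        have := Nat.mul_le_mul (Nat.mul_le_mul hΛ hΛ) this
        omega
    refine (hcount σ _ U fun a h => ⟨h.1, ?_⟩).trans (by omega)
    obtain ⟨⟨l, e⟩, h1, h2⟩ := mem_image.mp h.1
    obtain ⟨⟨m, e'⟩, h3, h4⟩ := mem_image.mp h.2
    simp only [mem_product, mem_insert, mem_singleton] at h1 h3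
    simp only [Int.cast_sub] at h2 h4
    simp only [hU, mem_biUnion, mem_product, mem_filter, mem_univ, true_and, mem_insert,
      mem_singleton]
    rcases hcarry n a with hc | hc
    · have := congrArg (fun z : ℤ => (z : ZMod p)) hc
      simp only [Int.cast_add] at this
      refine ⟨((l, m), e + e'), ⟨⟨h1.1, h3.1⟩, ?_⟩, by
        simp only; linear_combination h2 + h4 + this⟩
      rcases h1.2 with h | h <;> rcases h3.2 with h' | h' <;> simp only [h, h'] <;> norm_num
    · have := congrArg (fun z : ℤ => (z : ZMod p)) hc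
      simp only [Int.cast_add, Int.cast_sub, Int.cast_one] at this
      refine ⟨((l, m), e + e' - 1), ⟨⟨h1.1, h3.1⟩, ?_⟩, by
        simp only; linear_combination h2 + h4 + this⟩
      rcases h1.2 with h | h <;> rcases h3.2 with h' | h' <;> simp only [h, h'] <;> norm_num

end Pool.Agent.H46.ET
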