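import Mathlib
import Pool.Agent.H46.ET.Sys

set_option autoImplicit false

namespace Pool.Agent.H46.ET

open Finset

lemma mult_le (X : Finset ℤ) (lo : ℤ) (N q : ℤ) (hq : 0 < q) (D : ℝ) (hN : 0 ≤ N)
    (hX : ∀ a ∈ X, lo ≤ a ∧ a < lo + N) (hc : ∀ a ∈ X, ∀ b ∈ X, a ≡ b [ZMOD q])
    (hD : (N : ℝ) / q + 1 ≤ D) : (X.card : ℝ) ≤ D := by
  have h1 : X.card ≤ (Icc (0 : ℤ) (N / q)).card := by
    refine card_le_card_of_injOn (fun a => (a - lo) / q) (fun a ha => ?_) ?_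
    · have := hX a ha
      simp only [coe_Icc, Set.mem_Icc]
      exact ⟨Int.ediv_nonneg (by linarith) hq.le, Int.ediv_le_ediv hq (by linarith)⟩
    · intro a ha b hb hab
      have h2 : (a - lo) % q = (b - lo) % q := (hc a ha b hb).sub_right lo
      have e1 := Int.emod_add_mul_ediv (a - lo) q
      have e2 := Int.emod_add_mul_ediv (b - lo) q
      simp only at hab
      rw [h2, hab] at e1
      linarith
  have h0 : 0 ≤ N / q := Int.ediv_nonneg hN hq.le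
  have h2 : ((Icc (0 : ℤ) (N / q)).card : ℤ) = N / q + 1 := by
    rw [Int.card_Icc]; omega
  have h3 : (X.card : ℤ) ≤ N / q + 1 := by omega
  have h4 : ((N / q : ℤ) : ℝ) ≤ (N : ℝ) / q := by
    rw [le_div_iff₀ (by exact_mod_cast hq)]
    exact_mod_cast Int.ediv_mul_le N hq.ne'
  have h5 : (X.card : ℝ) ≤ ((N / q : ℤ) : ℝ) + 1 := by exact_mod_cast h3
  linarith

lemma card_le_fib (X : Finset ℤ) (f : ℤ → ℤ) (t : Finset ℤ) (c D : ℝ) (hD0 : 0 ≤ D)
    (hf : ∀ a ∈ X, f a ∈ t) (ht : (t.card : ℝ) ≤ c)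
    (hD : ∀ y ∈ t, ((fl X fun a => f a = y).card : ℝ) ≤ D) : (X.card : ℝ) ≤ c * D := by
  rw [card_eq_sum_card_fiberwise hf]
  push_cast
  refine (sum_le_card_nsmul _ _ D fun y hy => le_trans (le_of_eq ?_) (hD y hy)).trans ?_
  · congr 2
    ext a; simp
  · rw [nsmul_eq_mul]; gcongr

/-- Elements of one class mod `Q` whose next digit lies in a periodic set. -/
lemma card_digit (X : Finset ℤ) (Q m : ℤ) (hm : 0 < m) (γ : ℤ) (P : ℤ → Prop) (c D : ℝ)
    (hD0 : 0 ≤ D) (hper : ∀ a b, a ≡ b [ZMOD m] → P a → P b)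
    (hP : ((fl (Ico 0 m) P).card : ℝ) ≤ c) (hX : ∀ a ∈ X, a % Q = γ ∧ P (a / Q))
    (hD : ∀ y, ((fl X fun a => a ≡ y [ZMOD (Q * m)]).card : ℝ) ≤ D) : (X.card : ℝ) ≤ c * D := by
  refine card_le_fib X (fun a => (a / Q) % m) _ c D hD0 (fun a ha => ?_) hP fun y _ => ?_
  · simp only [mem_fl, mem_Ico]
    exact ⟨⟨Int.emod_nonneg _ hm.ne', Int.emod_lt_of_pos _ hm⟩,
      hper _ _ (Int.mod_modEq _ _).symm (hX a ha).2⟩
  · refine le_trans ?_ (hD (γ + Q * y))
    gcongr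
    intro a ha
    simp only [mem_fl] at ha ⊢
    refine ⟨ha.1, ?_⟩
    have e1 := Int.emod_add_mul_ediv a Q
    have e2 := Int.emod_add_mul_ediv (a / Q) m
    rw [(hX a ha.1).1] at e1
    rw [ha.2] at e2
    rw [Int.modEq_iff_dvd]
    exact ⟨-(a / Q / m), by linear_combination e1 + Q * e2⟩

/-- A periodic bounded basis. -/
structure Bas (Q : ℤ) (F : ℤ → Prop) (C d : ℝ) : Prop where
  per : ∀ a b, a ≡ b [ZMOD Q] → F a → F b
  dens : ((fl (Ico (0 : ℤ) Q) F).card : ℝ) ≤ d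
  low : ∀ n, ∃ a, F a ∧ F (n - a)
  up : ∀ n, ((fl (Ico (0 : ℤ) Q) fun a => F a ∧ F (n - a)).card : ℝ) ≤ C

lemma Sys.bas {p : ℕ} {g : ℕ → ℤ → Prop} (h : Sys p g) :
    Bas ((p : ℤ) ^ 2) (g 0) 1024 (8 * p) :=
  ⟨h.per 0, by exact_mod_cast h.dens 0, h.low 0 0, fun n => by exact_mod_cast h.up 0 0 n⟩

lemma Bas.step {Q : ℤ} {F : ℤ → Prop} {C d : ℝ} (hF : Bas Q F C d) (hQ : 0 < Q) {p : ℕ}
    (hp : 0 < p) {g : ℕ → ℤ → Prop} (h : Sys p g) (s : ℤ → ℕ) :
    Bas (Q * (p : ℤ) ^ 2) (fun a => F a ∧ g (s (a % Q)) (a / Q)) (C * 1024) (d * (8 * p)) := by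
  have hm : (0 : ℤ) < (p : ℤ) ^ 2 := by positivity
  have hone : ∀ (P : ℤ → Prop) (y : ℤ), ((fl (fl (Ico (0 : ℤ) (Q * (p : ℤ) ^ 2)) P)
      fun a => a ≡ y [ZMOD (Q * (p : ℤ) ^ 2)]).card : ℝ) ≤ 1 := by
    intro P y
    have : (fl (fl (Ico (0 : ℤ) (Q * (p : ℤ) ^ 2)) P)
      fun a => a ≡ y [ZMOD (Q * (p : ℤ) ^ 2)]).card ≤ 1 := by
      refine card_le_one.mpr fun a ha b hb => ?_
      simp only [mem_fl, mem_Ico] at ha hb
      have := ha.2.trans hb.2.symm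
      rwa [Int.ModEq, Int.emod_eq_of_lt ha.1.1.1 ha.1.1.2, Int.emod_eq_of_lt hb.1.1.1 hb.1.1.2]
        at this
    exact_mod_cast this
  have hdiv : ∀ γ x : ℤ, (γ + Q * x) / Q = γ / Q + x := fun γ x =>
    Int.add_mul_ediv_left _ _ hQ.ne'
  have hmod : ∀ γ x : ℤ, (γ + Q * x) % Q = γ % Q := fun γ x => Int.add_mul_emod_self_left _ _ _
  refine ⟨?_, ?_, ?_, ?_⟩
  · rintro a b hab ⟨h1, h2⟩
    obtain ⟨c, hc⟩ := hab.dvd
    have hb : b = a + Q * ((p : ℤ) ^ 2 * c) := by linear_combination hc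
    refine ⟨hF.per _ _ (hab.of_mul_right _) h1, ?_⟩
    rw [hb, hdiv, hmod]
    exact h.per _ _ _ (by rw [Int.modEq_iff_dvd]; simp) h2
  · refine card_le_fib _ (fun a => a % Q) (fl (Ico 0 Q) F) _ _ (by positivity) (fun a ha => ?_)
      hF.dens fun γ _ => ?_
    · simp only [mem_fl, mem_Ico] at ha ⊢
      exact ⟨⟨Int.emod_nonneg _ hQ.ne', Int.emod_lt_of_pos _ hQ⟩,
        hF.per _ _ (Int.mod_modEq _ _).symm ha.2.1⟩
    · refine (card_digit _ Q _ hm γ (g (s γ)) (8 * p) 1 zero_le_one (h.per _)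
        (by exact_mod_cast h.dens _) (fun a ha => ?_) fun y => ?_).trans (by simp)
      · simp only [mem_fl] at ha
        exact ⟨ha.2, ha.2 ▸ ha.1.2.2⟩
      · refine le_trans ?_ (hone (fun _ => True) y)
        gcongr
        intro a ha
        simp only [mem_fl] at ha ⊢
        exact ⟨⟨ha.1.1.1, trivial⟩, ha.2⟩
  · intro n
    obtain ⟨γ, h1, h2⟩ := hF.low n
    obtain ⟨x, h3, h4⟩ := h.low (s (γ % Q)) (s ((n - γ) % Q)) ((n - γ) / Q + γ / Q)
    have e : n - (γ + Q * (x - γ / Q)) = (n - γ) + Q * (γ / Q - x) := by ring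
    refine ⟨γ + Q * (x - γ / Q), ⟨hF.per _ _ (hmod _ _).symm h1, ?_⟩, ?_⟩
    · rw [hdiv, hmod]; convert h3 using 1; ring
    · rw [e, hdiv, hmod]
      exact ⟨hF.per _ _ (hmod _ _).symm h2, by convert h4 using 1; ring⟩
  · intro n
    refine card_le_fib _ (fun a => a % Q) (fl (Ico 0 Q) fun a => F a ∧ F (n - a)) _ _
      (by positivity) (fun a ha => ?_) (hF.up n) fun γ _ => ?_
    · simp only [mem_fl, mem_Ico] at ha ⊢
      exact ⟨⟨Int.emod_nonneg _ hQ.ne', Int.emod_lt_of_pos _ hQ⟩,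
        hF.per _ _ (Int.mod_modEq _ _).symm ha.2.1.1,
        hF.per _ _ ((Int.mod_modEq _ _).symm.sub_left n) ha.2.2.1⟩
    · refine (card_digit _ Q _ hm γ
        (fun x => g (s γ) x ∧ g (s ((n - γ) % Q)) ((n - γ) / Q - x)) 1024 1 zero_le_one
        (fun a b hab h1 => ⟨h.per _ _ _ hab h1.1, h.per _ _ _ (hab.sub_left _) h1.2⟩)
        (by exact_mod_cast h.up _ _ _) (fun a ha => ?_) fun y => ?_).trans (by simp)
      · simp only [mem_fl] at ha
        refine ⟨ha.2, ha.2 ▸ ha.1.2.1.2, ?_⟩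
        have e1 := Int.emod_add_mul_ediv a Q
        have e : n - a = (n - γ) + Q * (-(a / Q)) := by rw [← ha.2]; linear_combination e1
        have := ha.1.2.2.2
        rwa [e, hdiv, hmod] at this
      · refine le_trans ?_ (hone (fun _ => True) y)
        gcongr
        intro a ha
        simp only [mem_fl] at ha ⊢
        exact ⟨⟨ha.1.1.1, trivial⟩, ha.2⟩

/-- Extension of a finite shift table to all integers. -/
def ext {Q p : ℕ} (s : Fin Q → Fin p) (γ : ℤ) : ℕ :=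
  if h : γ.toNat < Q then s ⟨γ.toNat, h⟩ else 0

/-- The property `P` fails for at most an `ε` fraction of the shift tables. -/
def Cheap (Q p : ℕ) (ε : ℝ) (P : (ℤ → ℕ) → Prop) : Prop :=
  ((fl univ fun s : Fin Q → Fin p => ¬ P (ext s)).card : ℝ) ≤ ε * (p : ℝ) ^ Q

lemma Cheap.mono {Q p : ℕ} {ε ε' : ℝ} {P P' : (ℤ → ℕ) → Prop} (h : Cheap Q p ε P)
    (hε : ε ≤ ε') (hP : ∀ s, P s → P' s) : Cheap Q p ε' P' := by
  unfold Cheap at *
  refine le_trans ?_ (h.trans (by gcongr))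
  gcongr
  intro s hs
  simp only [mem_fl, mem_univ, true_and] at hs ⊢
  exact fun h => hs (hP _ h)

lemma Cheap.and {Q p : ℕ} {ε ε' : ℝ} {P P' : (ℤ → ℕ) → Prop} (h : Cheap Q p ε P)
    (h' : Cheap Q p ε' P') : Cheap Q p (ε + ε') fun s => P s ∧ P' s := by
  unfold Cheap at *
  have : (fl univ fun s : Fin Q → Fin p => ¬ (P (ext s) ∧ P' (ext s))) ⊆
      (fl univ fun s : Fin Q → Fin p => ¬ P (ext s)) ∪
        (fl univ fun s : Fin Q → Fin p => ¬ P' (ext s)) := by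
    intro s hs
    simp only [mem_fl, mem_univ, true_and, mem_union] at hs ⊢
    tauto
  have h2 := (card_le_card this).trans (card_union_le _ _)
  have h3 : ((fl univ fun s : Fin Q → Fin p => ¬ (P (ext s) ∧ P' (ext s))).card : ℝ) ≤ _ :=
    Nat.cast_le.mpr h2
  push_cast at h3
  linarith

lemma Cheap.all {Q p : ℕ} {ι : Type} (T : Finset ι) {ε : ℝ} {P : ι → (ℤ → ℕ) → Prop}
    (h : ∀ τ ∈ T, Cheap Q p ε (P τ)) : Cheap Q p (T.card * ε) fun s => ∀ τ ∈ T, P τ s := by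
  classical
  induction T using Finset.induction_on with
  | empty => simp [Cheap, fl]
  | insert a T ha ih =>
    refine ((h a (mem_insert_self _ _)).and (ih fun τ hτ => h τ (mem_insert_of_mem hτ))).mono
      (le_of_eq ?_) fun s hs τ hτ => ?_
    · rw [card_insert_of_notMem ha]; push_cast; ring
    · rcases mem_insert.mp hτ with rfl | hτ
      exacts [hs.1, hs.2 τ hτ]

lemma Cheap.exists {Q p : ℕ} (hp : 0 < p) {ε : ℝ} {P : (ℤ → ℕ) → Prop} (h : Cheap Q p ε P)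
    (hε : ε < 1) : ∃ s, P s := by
  by_contra hc
  push Not at hc
  unfold Cheap at h
  have : (fl univ fun s : Fin Q → Fin p => ¬ P (ext s)) = univ := by
    ext s; simp [hc]
  rw [this] at h
  simp only [card_univ, Fintype.card_pi, Fintype.card_fin, prod_const, Nat.cast_pow] at h
  have : (0 : ℝ) < (p : ℝ) ^ Q := by positivity
  nlinarith

lemma Cheap.markov {Q p : ℕ} {ε : ℝ} (F : (ℤ → ℕ) → ℝ) (hF : ∀ s, 0 ≤ F s)
    (h : ∑ s : Fin Q → Fin p, F (ext s) ≤ ε * (p : ℝ) ^ Q) : Cheap Q p ε fun s => F s ≤ 1 := by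
  unfold Cheap
  refine le_trans ?_ h
  refine le_trans ?_ (sum_le_sum_of_subset_of_nonneg
    (subset_univ (fl univ fun s : Fin Q → Fin p => ¬ F (ext s) ≤ 1)) fun s _ _ => hF _)
  rw [← mul_one ((card _ : ℕ) : ℝ), ← nsmul_eq_mul]
  refine card_nsmul_le_sum _ _ _ fun s hs => ?_
  simp only [mem_fl, mem_univ, true_and, not_le] at hs
  exact hs.le

lemma mgf {Q p : ℕ} (hQ : 0 < Q) (hp : 0 < p) {g : ℕ → ℤ → Prop} (h : Sys p g) (X : Finset ℤ)
    (θ D N : ℝ) (hθ : 0 ≤ θ) (hN : (X.card : ℝ) ≤ N)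
    (hD : ∀ γ σ, ((fl X fun a => a % Q = γ ∧ g σ (a / Q)).card : ℝ) ≤ D) :
    ∑ s : Fin Q → Fin p,
      Real.exp (θ * (fl X fun a => g (ext s (a % Q)) (a / Q)).card) ≤
      Real.exp (θ * Real.exp (θ * D) * (8 / p * N)) * (p : ℝ) ^ Q := by
  have hQ' : (0 : ℤ) < Q := by exact_mod_cast hQ
  have hp' : (0 : ℝ) < p := by exact_mod_cast hp
  set f : Fin Q → Fin p → ℝ := fun γ σ =>
    ((fl X fun a => a % Q = (γ : ℕ) ∧ g σ (a / Q)).card : ℝ) with hf
  set cl : ℤ → Fin Q := fun a => ⟨(a % Q).toNat, by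
    have := Int.emod_lt_of_pos a hQ'
    have := Int.emod_nonneg a hQ'.ne'
    omega⟩ with hcl
  have hcl1 : ∀ a (γ : Fin Q), cl a = γ ↔ a % Q = (γ : ℕ) := fun a γ => by
    have := Int.emod_nonneg a hQ'.ne'
    simp only [hcl, Fin.ext_iff]
    omega
  have hext : ∀ (s : Fin Q → Fin p) a, ext s (a % Q) = s (cl a) := fun s a => by
    unfold ext
    rw [dif_pos (cl a).2]
  have e1 : ∀ s : Fin Q → Fin p, ((fl X fun a => g (ext s (a % Q)) (a / Q)).card : ℝ) =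
      ∑ γ, f γ (s γ) := fun s => by
    rw [card_eq_sum_card_fiberwise (f := cl) (t := univ) (fun _ _ => mem_coe.mpr (mem_univ _))]
    push_cast
    refine sum_congr rfl fun γ _ => ?_
    simp only [hf]
    congr 2
    ext a
    simp only [mem_filter, mem_fl, hext, ← hcl1]
    constructor
    · rintro ⟨⟨h1, h2⟩, h3⟩; exact ⟨h1, h3, h3 ▸ h2⟩
    · rintro ⟨h1, h2, h3⟩; exact ⟨⟨h1, h2 ▸ h3⟩, h2⟩
  have e2 : ∀ γ, ∑ σ, f γ σ ≤ 8 * ((X.filter fun a => cl a = γ).card : ℝ) := fun γ => by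
    classical
    have : ∑ σ, f γ σ = ∑ a ∈ X.filter fun a => cl a = γ,
        ((univ.filter fun σ : Fin p => g σ (a / Q)).card : ℝ) := by
      simp only [hf, card_filter, fl]
      push_cast
      rw [sum_comm, sum_filter]
      refine sum_congr rfl fun a _ => ?_
      by_cases hc : cl a = γ
      · simp [hc, (hcl1 a γ).mp hc]
      · simp [hc, (hcl1 a γ).not.mp hc]
    rw [this, mul_comm, ← nsmul_eq_mul]
    refine sum_le_card_nsmul _ _ _ fun a _ => ?_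
    have h1 : (univ.filter fun σ : Fin p => g σ (a / Q)).card ≤
        (fl (range p) fun σ => g σ (a / Q)).card :=
      card_le_card_of_injOn (fun σ => (σ : ℕ)) (fun σ hσ => by simpa using hσ)
        (Fin.val_injective.injOn)
    exact_mod_cast h1.trans (h.prob _)
  have e3 : ∑ γ, ((X.filter fun a => cl a = γ).card : ℝ) = X.card := by
    rw [card_eq_sum_card_fiberwise (f := cl) (t := univ) (fun _ _ => mem_coe.mpr (mem_univ _))]
    push_cast; rfl
  set κ := θ * Real.exp (θ * D) with hκ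
  have hκ0 : 0 ≤ κ := by positivity
  have e4 : ∀ γ, ∑ σ, Real.exp (θ * f γ σ) ≤
      p * Real.exp (κ * (8 / p * ((X.filter fun a => cl a = γ).card : ℝ))) := fun γ => by
    have a1 : ∀ σ, Real.exp (θ * f γ σ) ≤ 1 + κ * f γ σ := fun σ => by
      have b0 : 0 ≤ f γ σ := Nat.cast_nonneg _
      have b1 : Real.exp (θ * f γ σ) ≤ Real.exp (θ * D) := by gcongr; exact hD _ _
      have b2 := Real.add_one_le_exp (-(θ * f γ σ))
      have b3 : Real.exp (-(θ * f γ σ)) * Real.exp (θ * f γ σ) = 1 := by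
        rw [← Real.exp_add]; simp
      have b4 := Real.exp_pos (θ * f γ σ)
      have b5 : 0 ≤ θ * f γ σ := by positivity
      have b6 : θ * f γ σ * Real.exp (θ * f γ σ) ≤ θ * f γ σ * Real.exp (θ * D) := by gcongr
      rw [hκ]
      nlinarith
    refine (sum_le_sum fun σ _ => a1 σ).trans ?_
    rw [sum_add_distrib, ← mul_sum]
    have a2 := Real.add_one_le_exp (κ * (8 / p * ((X.filter fun a => cl a = γ).card : ℝ)))
    have a3 := mul_le_mul_of_nonneg_left a2 hp'.le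
    have a4 := mul_le_mul_of_nonneg_left (e2 γ) hκ0
    have a5 : p * (κ * (8 / p * ((X.filter fun a => cl a = γ).card : ℝ)) + 1) =
        κ * (8 * ((X.filter fun a => cl a = γ).card : ℝ)) + p := by field_simp
    simp only [sum_const, card_univ, Fintype.card_fin, nsmul_eq_mul, mul_one]
    linarith
  simp only [e1, mul_sum, Real.exp_sum]
  rw [← Fintype.piFinset_univ, ← prod_univ_sum (fun _ => univ) fun γ σ => Real.exp (θ * f γ σ)]
  refine (prod_le_prod (fun γ _ => sum_nonneg fun σ _ => (Real.exp_pos _).le)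
    fun γ _ => e4 γ).trans ?_
  rw [prod_mul_distrib, ← Real.exp_sum, ← mul_sum, ← mul_sum, e3, mul_comm]
  simp only [prod_const, card_univ, Fintype.card_fin]
  gcongr

lemma Cheap.test {Q p : ℕ} (hQ : 0 < Q) (hp : 0 < p) {g : ℕ → ℤ → Prop} (h : Sys p g)
    (X : Finset ℤ) (θ D N L K : ℝ) (hθ : 0 < θ) (hN : (X.card : ℝ) ≤ N)
    (hD : ∀ γ σ, ((fl X fun a => a % Q = γ ∧ g σ (a / Q)).card : ℝ) ≤ D)
    (hK : θ * Real.exp (θ * D) * (8 / p * N) - θ * L ≤ -K) :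
    Cheap Q p (Real.exp (-K)) fun s => ((fl X fun a => g (s (a % Q)) (a / Q)).card : ℝ) ≤ L := by
  refine (Cheap.markov (fun s => Real.exp (θ * (fl X fun a => g (s (a % Q)) (a / Q)).card - θ * L))
    (fun s => (Real.exp_pos _).le) ?_).mono le_rfl fun s hs => ?_
  · simp only [Real.exp_sub]
    rw [← sum_div, div_le_iff₀ (Real.exp_pos _)]
    refine (mgf hQ hp h X θ D N hθ.le hN hD).trans ?_
    rw [mul_right_comm (Real.exp (-K)), ← Real.exp_add]
    gcongr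
    linarith
  · rw [Real.exp_le_one_iff] at hs
    have : θ * ((fl X fun a => g (s (a % Q)) (a / Q)).card : ℝ) ≤ θ * L := by linarith
    exact le_of_mul_le_mul_left this hθ

lemma Cheap.conc {Q p : ℕ} (hQ : 0 < Q) (hp : 0 < p) {g : ℕ → ℤ → Prop} (h : Sys p g)
    (X : Finset ℤ) (D N L K : ℝ) (hD0 : 0 < D) (hN : (X.card : ℝ) ≤ N)
    (hD : ∀ γ σ, ((fl X fun a => a % Q = γ ∧ g σ (a / Q)).card : ℝ) ≤ D)
    (hL : 24 * N / p + K * D ≤ L) :
    Cheap Q p (Real.exp (-K)) fun s => ((fl X fun a => g (s (a % Q)) (a / Q)).card : ℝ) ≤ L := by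
  refine Cheap.test hQ hp h X (1 / D) D N L K (by positivity) hN hD ?_
  have hN0 : 0 ≤ N := (Nat.cast_nonneg _).trans hN
  have e : 1 / D * D = 1 := by field_simp
  have e3 : Real.exp 1 ≤ 3 := Real.exp_one_lt_d9.le.trans (by norm_num)
  rw [e]
  have a1 : Real.exp 1 * (8 / p * N) ≤ 24 * N / p := by
    calc _ ≤ 3 * (8 / p * N) := by gcongr
      _ = _ := by ring
  have a2 : 1 / D * (Real.exp 1 * (8 / p * N) - L) ≤ 1 / D * (-(K * D)) := by
    gcongr; linarith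
  have a3 : 1 / D * (-(K * D)) = -K := by field_simp
  linarith

end Pool.Agent.H46.ET
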