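import Mathlib
import Pool.Agent.H46.ET.Layer

set_option autoImplicit false

namespace Pool.Agent.H46.ET

open Finset

lemma per_count (X : Finset ℤ) (N M : ℤ) (hM : 0 < M) (hN : 0 ≤ N) (P : ℤ → Prop) (c D : ℝ)
    (hper : ∀ a b, a ≡ b [ZMOD M] → P a → P b) (hP : ((fl (Ico 0 M) P).card : ℝ) ≤ c)
    (hX : ∀ a ∈ X, 0 ≤ a ∧ a < N ∧ P a) (hD : (N : ℝ) / M + 1 ≤ D) : (X.card : ℝ) ≤ c * D := by
  have hD0 : 0 ≤ D := le_trans (by positivity) hD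
  refine card_le_fib X (fun a => a % M) _ c D hD0 (fun a ha => ?_) hP fun y _ => ?_
  · simp only [mem_fl, mem_Ico]
    exact ⟨⟨Int.emod_nonneg _ hM.ne', Int.emod_lt_of_pos _ hM⟩,
      hper _ _ (Int.mod_modEq _ _).symm (hX a ha).2.2⟩
  · refine mult_le _ 0 N M hM D hN (fun a ha => ?_) (fun a ha b hb => ?_) hD
    · have := hX a (mem_fl.mp ha).1
      exact ⟨this.1, by linarith [this.2.1]⟩
    · exact (mem_fl.mp ha).2.trans (mem_fl.mp hb).2.symm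

lemma crt_modEq {a b m n : ℤ} (h : IsCoprime m n) (h1 : a ≡ b [ZMOD m]) (h2 : a ≡ b [ZMOD n]) :
    a ≡ b [ZMOD (m * n)] :=
  Int.modEq_iff_dvd.mpr (h.mul_dvd h1.dvd h2.dvd)

lemma crt_count (X : Finset ℤ) (N Q M γ n : ℤ) (hQ : 0 < Q) (hM : 0 < M) (hN : 0 ≤ N)
    (hco : IsCoprime Q M) (P : ℤ → Prop) (c D : ℝ)
    (hper : ∀ a b, a ≡ b [ZMOD M] → P a → P b) (hP : ((fl (Ico 0 M) P).card : ℝ) ≤ c)
    (hX : ∀ a ∈ X, 0 ≤ a ∧ a < N ∧ a % Q = γ ∧ P (n - a))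
    (hD : (N : ℝ) / (Q * M : ℤ) + 1 ≤ D) : (X.card : ℝ) ≤ c * D := by
  have hD0 : 0 ≤ D := le_trans (by positivity) hD
  refine card_le_fib X (fun a => (n - a) % M) _ c D hD0 (fun a ha => ?_) hP fun y _ => ?_
  · simp only [mem_fl, mem_Ico]
    exact ⟨⟨Int.emod_nonneg _ hM.ne', Int.emod_lt_of_pos _ hM⟩,
      hper _ _ (Int.mod_modEq _ _).symm (hX a ha).2.2.2⟩
  · refine mult_le _ 0 N (Q * M) (by positivity) D hN (fun a ha => ?_) (fun a ha b hb => ?_) hD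
    · have := hX a (mem_fl.mp ha).1
      exact ⟨this.1, by linarith [this.2.1]⟩
    · have h1 : n - a ≡ n - b [ZMOD M] := (mem_fl.mp ha).2.trans (mem_fl.mp hb).2.symm
      refine crt_modEq hco ((hX a (mem_fl.mp ha).1).2.2.1.trans
        (hX b (mem_fl.mp hb).1).2.2.1.symm) ?_
      have := h1.sub_left n
      simpa using this

structure Par (q : ℕ → ℕ) (G : ℕ → ℕ → ℤ → Prop) : Prop where
  prime : ∀ i, (q i).Prime
  lb : ∀ i, 2 ^ i < q i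
  ub : ∀ i, q i ≤ 2 ^ (i + 1)
  sys : ∀ i, 3 ≤ i → Sys (q i) (G i)

lemma exists_par : ∃ q G, Par q G := by
  choose q h1 h2 h3 using fun i : ℕ => Nat.exists_prime_lt_and_le_two_mul (2 ^ i) (by positivity)
  have : ∀ i, ∃ g, 3 ≤ i → Sys (q i) g := fun i => by
    by_cases hi : 3 ≤ i
    · have : 2 ^ 3 ≤ 2 ^ i := Nat.pow_le_pow_right (by norm_num) hi
      obtain ⟨g, hg⟩ := exists_sys (q i) (h1 i) (by have := h2 i; omega)
      exact ⟨g, fun _ => hg⟩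
    · exact ⟨fun _ _ => True, fun h => absurd h hi⟩
  choose G hG using this
  exact ⟨q, G, h1, h2, fun i => by rw [pow_succ]; have := h3 i; omega, hG⟩

variable {q : ℕ → ℕ} {G : ℕ → ℕ → ℤ → Prop}

lemma Par.cop (h : Par q G) {i i' : ℕ} (hi : i ≠ i') :
    IsCoprime ((q i : ℤ) ^ 2) ((q i' : ℤ) ^ 2) := by
  have key : ∀ a b, a < b → q a < q b := fun a b hab =>
    lt_of_le_of_lt ((h.ub a).trans (Nat.pow_le_pow_right (by norm_num) hab)) (h.lb b)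
  have hne : q i ≠ q i' := by
    rcases lt_or_gt_of_ne hi with h1 | h1
    exacts [(key _ _ h1).ne, (key _ _ h1).ne']
  exact (Nat.isCoprime_iff_coprime.mpr
    ((Nat.coprime_primes (h.prime i) (h.prime i')).mpr hne)).pow

lemma Par.pb (h : Par q G) (j : ℕ) :
    ((4 : ℝ) ^ j) ^ 2 ≤ q (4 * j) ∧ (q (4 * j) : ℝ) ≤ 2 * ((4 : ℝ) ^ j) ^ 2 := by
  have e : ((4 : ℝ) ^ j) ^ 2 = 2 ^ (4 * j) := by
    rw [show (4 : ℝ) = 2 ^ 2 by norm_num, ← pow_mul, ← pow_mul]; ring_nf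
  rw [e]
  refine ⟨by exact_mod_cast (h.lb _).le, ?_⟩
  rw [← pow_succ']
  exact_mod_cast h.ub _

lemma Par.rb (h : Par q G) (j : ℕ) :
    2 * (4 : ℝ) ^ j ≤ q (2 * j + 1) ∧ (q (2 * j + 1) : ℝ) ≤ 4 * (4 : ℝ) ^ j := by
  have e : (4 : ℝ) ^ j = 2 ^ (2 * j) := by rw [pow_mul]; norm_num
  rw [e, ← pow_succ']
  refine ⟨by exact_mod_cast (h.lb _).le, ?_⟩
  have : (4 : ℝ) * 2 ^ (2 * j) = 2 ^ (2 * j + 1 + 1) := by ring
  rw [this]
  exact_mod_cast h.ub _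

/-- Second class modulus of level `k`. -/
def Q2 (q : ℕ → ℕ) (k : ℕ) : ℕ := q (4 * k) ^ 2 * q (2 * k + 1) ^ 2

lemma Par.Qb (h : Par q G) (k : ℕ) :
    4 * ((4 : ℝ) ^ k) ^ 6 ≤ Q2 q k ∧ (Q2 q k : ℝ) ≤ 64 * ((4 : ℝ) ^ k) ^ 6 := by
  obtain ⟨p1, p2⟩ := h.pb k
  obtain ⟨r1, r2⟩ := h.rb k
  unfold Q2
  push_cast
  constructor
  · calc _ = (((4 : ℝ) ^ k) ^ 2) ^ 2 * (2 * (4 : ℝ) ^ k) ^ 2 := by ring
      _ ≤ _ := by gcongr
  · calc _ ≤ (2 * ((4 : ℝ) ^ k) ^ 2) ^ 2 * (4 * (4 : ℝ) ^ k) ^ 2 := by gcongr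
      _ = _ := by ring

lemma Par.Qpos (h : Par q G) (k : ℕ) : 0 < Q2 q k := by
  have := (h.prime (4 * k)).pos
  have := (h.prime (2 * k + 1)).pos
  unfold Q2; positivity

noncomputable def D0 : ℝ := 2 ^ 31

lemma D0_ge : 2 ^ 30 + 1 ≤ D0 := by unfold D0; norm_num

lemma D0_pos : 0 < D0 := by unfold D0; norm_num

/-- Normalised potential controlling class multiplicities modulo `Q2 q k`. -/
noncomputable def Phi (q : ℕ → ℕ) (k : ℕ) (S : Finset ℤ) : ℝ :=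
  (∑ c ∈ Ico (0 : ℤ) (Q2 q k), Real.exp (k / (4 * D0) *
    (fl S fun b => b ≡ c [ZMOD (Q2 q k)]).card)) / (Real.exp (k / (4 * D0)) * Q2 q k)

lemma Phi_nonneg (k : ℕ) (S : Finset ℤ) : 0 ≤ Phi q k S :=
  div_nonneg (sum_nonneg fun _ _ => (Real.exp_pos _).le) (by positivity)

lemma Phi_small (h : Par q G) (k : ℕ) (S : Finset ℤ) (hS : ∀ b ∈ S, 0 ≤ b ∧ b < Q2 q k) :
    Phi q k S ≤ 1 := by
  have hQ : (0 : ℝ) < Q2 q k := by exact_mod_cast h.Qpos k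
  have := D0_pos
  unfold Phi
  rw [div_le_one (by positivity)]
  refine (sum_le_card_nsmul _ _ (Real.exp (k / (4 * D0))) fun c _ => ?_).trans ?_
  · have : (fl S fun b => b ≡ c [ZMOD (Q2 q k)]).card ≤ 1 := by
      refine card_le_one.mpr fun a ha b hb => ?_
      simp only [mem_fl] at ha hb
      have := ha.2.trans hb.2.symm
      rwa [Int.ModEq, Int.emod_eq_of_lt (hS a ha.1).1 (hS a ha.1).2,
        Int.emod_eq_of_lt (hS b hb.1).1 (hS b hb.1).2] at this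
    have h1 : ((fl S fun b => b ≡ c [ZMOD (Q2 q k)]).card : ℝ) ≤ 1 := by exact_mod_cast this
    refine Real.exp_le_exp.mpr (mul_le_of_le_one_right (by positivity) h1)
  · simp [mul_comm]

lemma Phi_mult (h : Par q G) (k : ℕ) (hk : 1 ≤ k) (S : Finset ℤ) (hS : Phi q k S ≤ 8 ^ k)
    (c : ℤ) : ((fl S fun b => b ≡ c [ZMOD (Q2 q k)]).card : ℝ) ≤ 85 * D0 := by
  have hQ : (0 : ℝ) < Q2 q k := by exact_mod_cast h.Qpos k
  have hQ' : (0 : ℤ) < Q2 q k := by exact_mod_cast h.Qpos k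
  have hD := D0_pos
  have hD1 := D0_ge
  unfold Phi at hS
  rw [div_le_iff₀ (by positivity)] at hS
  have h1 := (single_le_sum (f := fun c : ℤ => Real.exp (k / (4 * D0) *
    (fl S fun b => b ≡ c [ZMOD (Q2 q k)]).card)) (fun _ _ => (Real.exp_pos _).le)
    (mem_Ico.mpr ⟨Int.emod_nonneg c hQ'.ne', Int.emod_lt_of_pos c hQ'⟩)).trans hS
  have e : (fl S fun b => b ≡ c % (Q2 q k) [ZMOD (Q2 q k)]) =
      fl S fun b => b ≡ c [ZMOD (Q2 q k)] := by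
    ext b; simp [Int.ModEq]
  rw [e] at h1
  have h2 : (8 : ℝ) ^ k * Q2 q k ≤ Real.exp (21 * k) := by
    have a1 : (8 : ℝ) ^ k * (64 * ((4 : ℝ) ^ k) ^ 6) = 2 ^ (15 * k + 6) := by
      rw [show (8 : ℝ) = 2 ^ 3 by norm_num, show (4 : ℝ) = 2 ^ 2 by norm_num,
        show (64 : ℝ) = 2 ^ 6 by norm_num, ← pow_mul, ← pow_mul, ← pow_mul, ← pow_add, ← pow_add]
      ring_nf
    have a2 : (2 : ℝ) ≤ Real.exp 1 := by have := Real.add_one_le_exp 1; linarith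
    calc _ ≤ (8 : ℝ) ^ k * (64 * ((4 : ℝ) ^ k) ^ 6) := by gcongr; exact (h.Qb k).2
      _ = 2 ^ (15 * k + 6) := a1
      _ ≤ 2 ^ (21 * k) := pow_le_pow_right₀ (by norm_num) (by omega)
      _ ≤ Real.exp 1 ^ (21 * k) := by gcongr
      _ = _ := by rw [← Real.exp_nat_mul]; simp
  have h3 : Real.exp (k / (4 * D0) * (fl S fun b => b ≡ c [ZMOD (Q2 q k)]).card) ≤
      Real.exp (k / (4 * D0) + 21 * k) := by
    rw [Real.exp_add]
    refine h1.trans ?_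
    rw [mul_left_comm]
    gcongr
  rw [Real.exp_le_exp] at h3
  have hk' : (0 : ℝ) < k := by exact_mod_cast hk
  have e2 : k / (4 * D0) + 21 * k = k / (4 * D0) * (1 + 84 * D0) := by field_simp; ring
  rw [e2] at h3
  have := le_of_mul_le_mul_left h3 (by positivity)
  linarith

/-- The invariant carried by the union of the levels below `j`. -/
def Inv (q : ℕ → ℕ) (G : ℕ → ℕ → ℤ → Prop) (j : ℕ) (S : Finset ℤ) : Prop :=
  (∀ b ∈ S, 0 ≤ b ∧ b < 2 ^ 10 * 4 ^ (10 * j)) ∧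
  (∀ k, j ≤ k → ∀ n : ℤ, ((fl S fun b => G (4 * k) 0 (n - b)).card : ℝ) ≤
    200000 * D0 * 2 ^ (5 * k + j)) ∧
  ∑ k ∈ Icc j (2 * j), Phi q k S ≤ 8 ^ j

lemma inv_empty (h : Par q G) (j : ℕ) : Inv q G j ∅ := by
  refine ⟨by simp, fun k _ n => ?_, ?_⟩
  · have := D0_pos
    simp only [fl, filter_empty, card_empty, Nat.cast_zero]; positivity
  · refine (sum_le_card_nsmul _ _ 1 fun k _ => Phi_small h k _ (by simp)).trans ?_
    simp only [Nat.card_Icc, nsmul_eq_mul, mul_one]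
    have h1 : 2 * j + 1 - j ≤ 2 ^ j := by
      have := Nat.lt_two_pow_self (n := j); omega
    have h2 : 2 ^ j ≤ 8 ^ j := Nat.pow_le_pow_left (by norm_num) j
    exact_mod_cast h1.trans h2

/-- The range of level `j`. -/
noncomputable def I (j : ℕ) : Finset ℤ := Ico (4 ^ (10 * j)) (2 ^ 30 * 4 ^ (10 * j))

lemma mem_I {j : ℕ} {a : ℤ} (h : a ∈ I j) : 0 ≤ a ∧ a < 2 ^ 30 * 4 ^ (10 * j) := by
  have := mem_Ico.mp h
  exact ⟨le_trans (by positivity) this.1, this.2⟩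

lemma j_le (j : ℕ) : (j : ℝ) ≤ 4 ^ j := by
  have h1 := (Nat.lt_two_pow_self (n := j)).le
  have h2 : 2 ^ j ≤ 4 ^ j := Nat.pow_le_pow_left (by norm_num) j
  exact_mod_cast h1.trans h2

lemma fut (h : Par q G) (j : ℕ) (hj : 1 ≤ j) (X : Finset ℤ) (D : ℝ) (hD0 : 0 < D)
    (hX : ∀ a ∈ X, G (4 * j) 0 a)
    (hD : ∀ γ, ((fl X fun a => a % (q (4 * j) ^ 2 : ℕ) = γ).card : ℝ) ≤ D) :
    Cheap (q (4 * j) ^ 2) (q (2 * j + 1)) (Real.exp (-(20 * j))) fun s =>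
      ((fl X fun a => G (2 * j + 1) (s (a % (q (4 * j) ^ 2 : ℕ)))
        (a / (q (4 * j) ^ 2 : ℕ))).card : ℝ) ≤ 300 * 4 ^ j * D := by
  obtain ⟨p1, p2⟩ := h.pb j
  obtain ⟨r1, r2⟩ := h.rb j
  have hp := (h.prime (4 * j)).pos
  have s1 := h.sys (4 * j) (by omega)
  have hm : (0 : ℤ) < (q (4 * j) : ℤ) ^ 2 := by positivity
  refine Cheap.conc (by positivity) (h.prime _).pos (h.sys _ (by omega)) X D
    (16 * ((4 : ℝ) ^ j) ^ 2 * D) _ _ hD0 ?_ (fun γ σ => le_trans ?_ (hD γ)) ?_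
  · refine card_le_fib X (fun a => a % (q (4 * j) ^ 2 : ℕ))
      (fl (Ico 0 ((q (4 * j) : ℤ) ^ 2)) (G (4 * j) 0)) _ D hD0.le (fun a ha => ?_) ?_
      fun y _ => hD y
    · simp only [mem_fl, mem_Ico]
      push_cast
      exact ⟨⟨Int.emod_nonneg _ hm.ne', Int.emod_lt_of_pos _ hm⟩,
        s1.per _ _ _ (Int.mod_modEq _ _).symm (hX a ha)⟩
    · have : ((fl (Ico 0 ((q (4 * j) : ℤ) ^ 2)) (G (4 * j) 0)).card : ℝ) ≤ 8 * q (4 * j) := by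
        exact_mod_cast s1.dens 0
      linarith
  · gcongr
    intro a ha
    simp only [mem_fl] at ha ⊢
    exact ⟨ha.1, ha.2.1⟩
  · have := j_le j
    have a1 : 24 * (16 * ((4 : ℝ) ^ j) ^ 2 * D) / q (2 * j + 1) ≤ 192 * 4 ^ j * D := by
      calc _ ≤ 24 * (16 * ((4 : ℝ) ^ j) ^ 2 * D) / (2 * 4 ^ j) := by gcongr
        _ = _ := by field_simp; ring
    have a2 : 20 * j * D ≤ 20 * 4 ^ j * D := by gcongr
    have a3 : 0 ≤ 4 ^ j * D := by positivity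
    linarith

end Pool.Agent.H46.ET
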