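import Mathlib
import Pool.Agent.H46.ET.Step

set_option autoImplicit false

namespace Pool.Agent.H46.ET

open Finset

variable {q : ℕ → ℕ} {G : ℕ → ℕ → ℤ → Prop}

/-- Second-layer condition. -/
def P2 (q : ℕ → ℕ) (G : ℕ → ℕ → ℤ → Prop) (j : ℕ) (s : ℤ → ℕ) (a : ℤ) : Prop :=
  G (2 * j + 1) (s (a % (q (4 * j) ^ 2 : ℕ))) (a / (q (4 * j) ^ 2 : ℕ))

/-- Third-layer condition. -/
def P3 (q : ℕ → ℕ) (G : ℕ → ℕ → ℤ → Prop) (j : ℕ) (t : ℤ → ℕ) (a : ℤ) : Prop :=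
  G (4 * j) (t (a % (Q2 q j))) (a / (Q2 q j))

noncomputable def Xa (G : ℕ → ℕ → ℤ → Prop) (j k : ℕ) (n : ℤ) : Finset ℤ :=
  fl (I j) fun a => G (4 * j) 0 a ∧ G (4 * k) 0 (n - a)

noncomputable def Xb (q : ℕ → ℕ) (G : ℕ → ℕ → ℤ → Prop) (j k : ℕ) (c : ℤ) : Finset ℤ :=
  fl (I j) fun a => G (4 * j) 0 a ∧ a ≡ c [ZMOD (Q2 q k)]

noncomputable def Xc (G : ℕ → ℕ → ℤ → Prop) (j : ℕ) (S : Finset ℤ) (n : ℤ) : Finset ℤ :=
  fl (I j) fun a => G (4 * j) 0 a ∧ n - a ∈ S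

noncomputable def Da (j k : ℕ) : ℝ :=
  16 * ((4 : ℝ) ^ k) ^ 2 * (2 ^ 30 * ((4 : ℝ) ^ j) ^ 6 / ((4 : ℝ) ^ k) ^ 4 + 1)

/-- Index set of the tests. -/
noncomputable def T (j : ℕ) : Finset (ℕ × ℤ) :=
  Icc (j + 1) (2 * j + 2) ×ˢ Ico (0 : ℤ) (2 ^ 31 * 4 ^ (12 * j))

lemma T_card (j : ℕ) : ((T j).card : ℝ) = (j + 2) * (2 ^ 31 * 4 ^ (12 * j)) := by
  unfold T
  rw [card_product, Nat.card_Icc, Int.card_Ico]
  have e1 : 2 * j + 2 + 1 - (j + 1) = j + 2 := by omega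
  have e2 : ((2 : ℤ) ^ 31 * 4 ^ (12 * j) - 0).toNat = 2 ^ 31 * 4 ^ (12 * j) := by
    rw [sub_zero]
    exact_mod_cast Int.toNat_natCast (2 ^ 31 * 4 ^ (12 * j))
  rw [e1, e2]
  push_cast; ring

lemma cast_range (j : ℕ) : (((2 : ℤ) ^ 30 * 4 ^ (10 * j) : ℤ) : ℝ) = 2 ^ 30 * ((4 : ℝ) ^ j) ^ 10 := by
  push_cast; rw [← pow_mul, mul_comm j]; norm_num

lemma Xb_mult (h : Par q G) (j k : ℕ) (hjk : j < k) (c γ : ℤ) :
    ((fl (Xb q G j k c) fun a => a % (q (4 * j) ^ 2 : ℕ) = γ).card : ℝ) ≤ D0 := by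
  obtain ⟨p1, p2⟩ := h.pb j
  obtain ⟨Q1, -⟩ := h.Qb k
  have hp := (h.prime (4 * j)).pos
  have hQ := h.Qpos k
  have hco : IsCoprime ((q (4 * j) ^ 2 : ℕ) : ℤ) (Q2 q k) := by
    unfold Q2; push_cast
    exact (h.cop (by omega)).mul_right (h.cop (by omega))
  refine mult_le _ 0 (2 ^ 30 * 4 ^ (10 * j)) ((q (4 * j) ^ 2 : ℕ) * Q2 q k) (by positivity) D0
    (by positivity) (fun a ha => ?_) (fun a ha b hb => ?_) ?_
  · simp only [Xb, mem_fl] at ha
    simpa using mem_I ha.1.1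
  · simp only [Xb, mem_fl] at ha hb
    exact crt_modEq hco (ha.2.trans hb.2.symm) (ha.1.2.2.trans hb.1.2.2.symm)
  · refine le_trans ?_ D0_ge
    rw [cast_range]
    push_cast
    have hw : (4 : ℝ) ^ j ≤ 4 ^ k := pow_le_pow_right₀ (by norm_num) hjk.le
    gcongr
    rw [div_le_iff₀ (by positivity)]
    have a1 : ((4 : ℝ) ^ j) ^ 6 ≤ Q2 q k := by
      have : ((4 : ℝ) ^ j) ^ 6 ≤ ((4 : ℝ) ^ k) ^ 6 := by gcongr
      have : 0 ≤ ((4 : ℝ) ^ k) ^ 6 := by positivity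
      linarith
    calc _ = 2 ^ 30 * ((((4 : ℝ) ^ j) ^ 2) ^ 2 * ((4 : ℝ) ^ j) ^ 6) := by ring
      _ ≤ 2 ^ 30 * ((q (4 * j) : ℝ) ^ 2 * Q2 q k) := by gcongr
      _ = _ := by norm_num

lemma Xa_mult (h : Par q G) (j k : ℕ) (hjk : j < k) (n γ : ℤ) :
    ((fl (Xa G j k n) fun a => a % (q (4 * j) ^ 2 : ℕ) = γ).card : ℝ) ≤ Da j k := by
  obtain ⟨p1, -⟩ := h.pb j
  obtain ⟨p3, p4⟩ := h.pb k
  have hp := (h.prime (4 * j)).pos
  have hp' := (h.prime (4 * k)).pos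
  have s1 := h.sys (4 * k) (by omega)
  refine crt_count _ (2 ^ 30 * 4 ^ (10 * j)) (q (4 * j) ^ 2 : ℕ) ((q (4 * k) : ℤ) ^ 2) γ n
    (by positivity) (by positivity) (by positivity) (by push_cast; exact h.cop (by omega))
    (G (4 * k) 0) _ _ (s1.per 0) ?_ (fun a ha => ?_) ?_
  · have : ((fl (Ico 0 ((q (4 * k) : ℤ) ^ 2)) (G (4 * k) 0)).card : ℝ) ≤ 8 * q (4 * k) := by
      exact_mod_cast s1.dens 0
    linarith
  · simp only [Xa, mem_fl] at ha
    exact ⟨(mem_I ha.1.1).1, (mem_I ha.1.1).2, ha.2, ha.1.2.2⟩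
  · rw [cast_range]
    push_cast
    gcongr ?_ + 1
    calc _ ≤ 2 ^ 30 * ((4 : ℝ) ^ j) ^ 10 / ((((4 : ℝ) ^ j) ^ 2) ^ 2 * (((4 : ℝ) ^ k) ^ 2) ^ 2) := by
          gcongr
      _ = _ := by field_simp

lemma Xc_class (S : Finset ℤ) (j : ℕ) (n : ℤ) (D : ℝ)
    (hS : ∀ c, ((fl S fun b => b ≡ c [ZMOD (Q2 q j)]).card : ℝ) ≤ D) (X : Finset ℤ) (y : ℤ)
    (hX : ∀ a ∈ X, n - a ∈ S ∧ a ≡ y [ZMOD (Q2 q j)]) : (X.card : ℝ) ≤ D := by
  refine le_trans ?_ (hS (n - y))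
  exact_mod_cast card_le_card_of_injOn (fun a => n - a)
    (fun a ha => mem_fl.mpr ⟨(hX a ha).1, (hX a ha).2.sub_left n⟩)
    (fun a _ b _ hab => by simpa using hab)

lemma Z_le_T (j : ℕ) : (((Ico (0 : ℤ) (2 ^ 31 * 4 ^ (12 * j))).card : ℕ) : ℝ) ≤ (T j).card := by
  have : (Ico (0 : ℤ) (2 ^ 31 * 4 ^ (12 * j))).card ≤ (T j).card := by
    unfold T
    rw [card_product]
    exact Nat.le_mul_of_pos_left _ (by simp; omega)
  exact_mod_cast this

lemma layer2 (h : Par q G) (j : ℕ) (hj : 1 ≤ j) (S : Finset ℤ) (hS : Inv q G j S)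
    (hE : (T j).card * Real.exp (-(20 * j)) ≤ 1 / 10) :
    ∃ s : ℤ → ℕ,
      (∀ τ ∈ T j, ((fl (Xa G j τ.1 τ.2) (P2 q G j s)).card : ℝ) ≤ 300 * 4 ^ j * Da j τ.1) ∧
      (∀ τ ∈ T j, ((fl (Xb q G j τ.1 τ.2) (P2 q G j s)).card : ℝ) ≤ 300 * 4 ^ j * D0) ∧
      (∀ n ∈ Ico (0 : ℤ) (2 ^ 31 * 4 ^ (12 * j)),
        ((fl (Xc G j S n) (P2 q G j s)).card : ℝ) ≤ 2500000 * D0 * ((4 : ℝ) ^ j) ^ 2) := by
  have hD := D0_pos
  have hτ : ∀ τ ∈ T j, j < τ.1 := fun τ hτ => by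
    have := (mem_Icc.mp (mem_product.mp hτ).1).1; omega
  have c1 := Cheap.all (T j) fun τ hτ' => fut h j hj (Xa G j τ.1 τ.2) (Da j τ.1)
    (by unfold Da; positivity) (fun a ha => (mem_fl.mp ha).2.1) (Xa_mult h j τ.1 (hτ τ hτ') τ.2)
  have c2 := Cheap.all (T j) fun τ hτ' => fut h j hj (Xb q G j τ.1 τ.2) D0 hD
    (fun a ha => (mem_fl.mp ha).2.1) (Xb_mult h j τ.1 (hτ τ hτ') τ.2)
  obtain ⟨r1, r2⟩ := h.rb j
  have hp := (h.prime (4 * j)).pos
  have hr := (h.prime (2 * j + 1)).pos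
  have s2 := h.sys (2 * j + 1) (by omega)
  have hmul := Phi_mult h j hj S ((single_le_sum (f := fun k => Phi q k S)
    (fun k _ => Phi_nonneg k S) (mem_Icc.mpr ⟨le_rfl, by omega⟩)).trans hS.2.2)
  have c3 := Cheap.all (Ico (0 : ℤ) (2 ^ 31 * 4 ^ (12 * j))) fun n _ =>
    Cheap.conc (Q := q (4 * j) ^ 2) (by positivity) hr s2 (Xc G j S n)
      (32 * 4 ^ j * (85 * D0)) (200000 * D0 * ((4 : ℝ) ^ j) ^ 3)
      (2500000 * D0 * ((4 : ℝ) ^ j) ^ 2) (20 * j) (by positivity)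
      (by
        have e : ((4 : ℝ) ^ j) ^ 3 = 2 ^ (5 * j + j) := by
          rw [show (4 : ℝ) = 2 ^ 2 by norm_num, ← pow_mul, ← pow_mul]; ring_nf
        rw [e]
        refine le_trans ?_ (hS.2.1 j le_rfl n)
        exact_mod_cast card_le_card_of_injOn (fun a => n - a)
          (fun a ha => by
            have := (mem_fl.mp ha).2
            exact mem_fl.mpr ⟨this.2, by simpa using this.1⟩)
          (fun a _ b _ hab => by simpa using hab))
      (fun γ σ => by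
        refine card_digit _ (q (4 * j) ^ 2 : ℕ) ((q (2 * j + 1) : ℤ) ^ 2) (by positivity) γ
          (G (2 * j + 1) σ) _ _ (by positivity) (s2.per σ) ?_ (fun a ha => (mem_fl.mp ha).2)
          fun y => Xc_class S j n _ hmul _ y fun a ha => ?_
        · have : ((fl (Ico 0 ((q (2 * j + 1) : ℤ) ^ 2)) (G (2 * j + 1) σ)).card : ℝ) ≤
              8 * q (2 * j + 1) := by exact_mod_cast s2.dens σ
          linarith
        · simp only [Xc, mem_fl] at ha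
          refine ⟨ha.1.1.2.2, ?_⟩
          have := ha.2
          unfold Q2
          push_cast at this ⊢
          exact this)
      (by
        have := j_le j
        have a1 : 24 * (200000 * D0 * ((4 : ℝ) ^ j) ^ 3) / q (2 * j + 1) ≤
            2400000 * D0 * ((4 : ℝ) ^ j) ^ 2 := by
          calc _ ≤ 24 * (200000 * D0 * ((4 : ℝ) ^ j) ^ 3) / (2 * 4 ^ j) := by gcongr
            _ = _ := by field_simp; ring
        have a2 : 20 * j * (32 * 4 ^ j * (85 * D0)) ≤ 20 * 4 ^ j * (32 * 4 ^ j * (85 * D0)) := by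
          gcongr
        have a3 : 0 ≤ D0 * ((4 : ℝ) ^ j) ^ 2 := by positivity
        nlinarith)
  have := Z_le_T j
  have h3 : ((Ico (0 : ℤ) (2 ^ 31 * 4 ^ (12 * j))).card : ℝ) * Real.exp (-(20 * j)) ≤
    (T j).card * Real.exp (-(20 * j)) := by gcongr
  exact (c1.and (c2.and c3)).exists hr (by linarith)

/-- The set chosen at level `j`. -/
noncomputable def lev (q : ℕ → ℕ) (G : ℕ → ℕ → ℤ → Prop) (j : ℕ) (s t : ℤ → ℕ) : Finset ℤ :=
  fl (I j) fun a => (G (4 * j) 0 a ∧ P2 q G j s a) ∧ P3 q G j t a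

lemma class3 (h : Par q G) (j : ℕ) (hj : 1 ≤ j) (X : Finset ℤ) (hX : X ⊆ I j) (γ : ℤ) (σ : ℕ) :
    ((fl X fun a => a % (Q2 q j) = γ ∧ G (4 * j) σ (a / (Q2 q j))).card : ℝ) ≤
      16 * ((4 : ℝ) ^ j) ^ 2 * D0 := by
  obtain ⟨p1, p2⟩ := h.pb j
  obtain ⟨Q1, -⟩ := h.Qb j
  have hp := (h.prime (4 * j)).pos
  have hQ := h.Qpos j
  have s1 := h.sys (4 * j) (by omega)
  refine card_digit _ (Q2 q j) ((q (4 * j) : ℤ) ^ 2) (by positivity) γ (G (4 * j) σ) _ _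
    D0_pos.le (s1.per σ) ?_ (fun a ha => (mem_fl.mp ha).2) fun y => ?_
  · have : ((fl (Ico 0 ((q (4 * j) : ℤ) ^ 2)) (G (4 * j) σ)).card : ℝ) ≤ 8 * q (4 * j) := by
      exact_mod_cast s1.dens σ
    linarith
  · refine mult_le _ 0 (2 ^ 30 * 4 ^ (10 * j)) (Q2 q j * (q (4 * j) : ℤ) ^ 2) (by positivity) D0
      (by positivity) (fun a ha => ?_) (fun a ha b hb => ?_) ?_
    · simp only [mem_fl] at ha
      simpa using mem_I (hX ha.1.1)
    · exact (mem_fl.mp ha).2.trans (mem_fl.mp hb).2.symm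
    · refine le_trans ?_ D0_ge
      rw [cast_range]
      push_cast
      gcongr
      rw [div_le_iff₀ (by positivity)]
      have a1 : ((4 : ℝ) ^ j) ^ 6 ≤ Q2 q j := by
        have : 0 ≤ ((4 : ℝ) ^ j) ^ 6 := by positivity
        linarith
      calc _ = 2 ^ 30 * (((4 : ℝ) ^ j) ^ 6 * (((4 : ℝ) ^ j) ^ 2) ^ 2) := by ring
        _ ≤ 2 ^ 30 * (Q2 q j * (q (4 * j) : ℝ) ^ 2) := by gcongr
        _ = _ := by norm_num

lemma pow4 (j e : ℕ) : ((4 : ℝ) ^ j) ^ e = 2 ^ (2 * j * e) := by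
  rw [show (4 : ℝ) = 2 ^ 2 by norm_num, ← pow_mul, ← pow_mul, mul_assoc]

lemma La_bound (j k : ℕ) (hjk : j < k) (p : ℝ) (hp : ((4 : ℝ) ^ j) ^ 2 ≤ p) :
    24 * (300 * 4 ^ j * Da j k) / p + 20 * j * (16 * ((4 : ℝ) ^ j) ^ 2 * D0) ≤
      200000 * D0 * 2 ^ (5 * k + j) := by
  have hD := D0_pos
  have hD1 := D0_ge
  have b1 : ((4 : ℝ) ^ j) ^ 5 / ((4 : ℝ) ^ k) ^ 2 ≤ 2 ^ (5 * k + j) := by
    rw [div_le_iff₀ (by positivity), pow4, pow4, ← pow_add]
    exact pow_le_pow_right₀ (by norm_num) (by omega)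
  have b2 : ((4 : ℝ) ^ k) ^ 2 / 4 ^ j ≤ 2 ^ (5 * k + j) := by
    rw [div_le_iff₀ (by positivity), pow4]
    exact le_trans (pow_le_pow_right₀ (by norm_num) (by omega))
      (le_mul_of_one_le_right (by positivity) (one_le_pow₀ (by norm_num)))
  have b3 : j * ((4 : ℝ) ^ j) ^ 2 ≤ 2 ^ (5 * k + j) := by
    have : (j : ℝ) ≤ 2 ^ j := by exact_mod_cast (Nat.lt_two_pow_self (n := j)).le
    calc _ ≤ 2 ^ j * ((4 : ℝ) ^ j) ^ 2 := by gcongr
      _ ≤ _ := by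
        rw [pow4, ← pow_add]
        exact pow_le_pow_right₀ (by norm_num) (by omega)
  have a1 : 24 * (300 * 4 ^ j * Da j k) / p ≤ 115200 * (2 ^ 30 *
      (((4 : ℝ) ^ j) ^ 5 / ((4 : ℝ) ^ k) ^ 2) + ((4 : ℝ) ^ k) ^ 2 / 4 ^ j) := by
    have : 0 ≤ Da j k := by unfold Da; positivity
    calc _ ≤ 24 * (300 * 4 ^ j * Da j k) / ((4 : ℝ) ^ j) ^ 2 := by gcongr
      _ = _ := by unfold Da; field_simp; ring
  have y0 : (0 : ℝ) < 2 ^ (5 * k + j) := by positivity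
  generalize (2 : ℝ) ^ (5 * k + j) = y at *
  have a2 : D0 * (j * ((4 : ℝ) ^ j) ^ 2) ≤ D0 * y := by gcongr
  have a3 : (2 ^ 30 + 1) * y ≤ D0 * y := by gcongr
  have a4 : 0 < D0 * y := by positivity
  nlinarith

lemma layer3 (h : Par q G) (j : ℕ) (hj : 2 ≤ j) (S : Finset ℤ) (hS : Inv q G j S)
    (hE : (T j).card * Real.exp (-(20 * j)) ≤ 1 / 10)
    (hE2 : ((j : ℝ) + 1) / 2 * Real.exp ((j + 1) / 2) * 2400 ≤ 4 ^ j) :
    ∃ s t : ℤ → ℕ,
      (∀ τ ∈ T j, ((fl (lev q G j s t) fun a => G (4 * τ.1) 0 (τ.2 - a)).card : ℝ) ≤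
        200000 * D0 * 2 ^ (5 * τ.1 + j)) ∧
      (∀ n ∈ Ico (0 : ℤ) (2 ^ 31 * 4 ^ (12 * j)),
        ((fl (lev q G j s t) fun a => n - a ∈ S).card : ℝ) ≤ 10 ^ 8 * D0 * j / Real.log j) ∧
      ∑ k ∈ Icc (j + 1) (2 * (j + 1)), Phi q k (S ∪ lev q G j s t) ≤ 8 ^ (j + 1) := by
  obtain ⟨s, ha, hb, hc⟩ := layer2 h j (by omega) S hS hE
  have hD := D0_pos
  have hτ : ∀ τ ∈ T j, j < τ.1 := fun τ hτ => by
    have := (mem_Icc.mp (mem_product.mp hτ).1).1; omega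
  obtain ⟨p1, p2⟩ := h.pb j
  have hp := (h.prime (4 * j)).pos
  have hp' : (0 : ℝ) < q (4 * j) := by exact_mod_cast hp
  have hQ := h.Qpos j
  have s1 := h.sys (4 * j) (by omega)
  have hmul := Phi_mult h j (by omega) S ((single_le_sum (f := fun k => Phi q k S)
    (fun k _ => Phi_nonneg k S) (mem_Icc.mpr ⟨le_rfl, by omega⟩)).trans hS.2.2)
  have c1 := Cheap.all (T j) fun τ hτ' =>
    Cheap.conc hQ hp s1 (fl (Xa G j τ.1 τ.2) (P2 q G j s)) (16 * ((4 : ℝ) ^ j) ^ 2 * D0) _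
      (200000 * D0 * 2 ^ (5 * τ.1 + j)) (20 * j) (by positivity) (ha τ hτ')
      (class3 h j (by omega) _ fun a ha => (mem_fl.mp (mem_fl.mp ha).1).1)
      (La_bound j τ.1 (hτ τ hτ') _ p1)
  have hj' : (2 : ℝ) ≤ j := by exact_mod_cast hj
  have hlog : 0 < Real.log j := Real.log_pos (by linarith)
  have c2 := Cheap.all (Ico (0 : ℤ) (2 ^ 31 * 4 ^ (12 * j))) fun n hn =>
    Cheap.test hQ hp s1 (fl (Xc G j S n) (P2 q G j s)) (Real.log j / (170 * D0)) (85 * D0) _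
      (10 ^ 8 * D0 * j / Real.log j) (20 * j) (by positivity) (hc n hn)
      (fun γ σ => Xc_class S j n _ hmul _ γ fun a ha => by
        simp only [Xc, mem_fl] at ha
        exact ⟨ha.1.1.2.2, ha.2.1 ▸ (Int.mod_modEq _ _).symm⟩)
      (by
        have e1 : Real.log j / (170 * D0) * (85 * D0) = Real.log j / 2 := by field_simp; ring
        have e2 : Real.log j / (170 * D0) * (10 ^ 8 * D0 * j / Real.log j) = 10 ^ 8 / 170 * j := by
          field_simp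
        have e3 : Real.exp (Real.log j / 2) * Real.exp (Real.log j / 2) = j := by
          rw [← Real.exp_add, add_halves, Real.exp_log (by linarith)]
        have e4 := Real.add_one_le_exp (Real.log j / 2)
        have e5 := Real.exp_pos (Real.log j / 2)
        have e6 : Real.log j * Real.exp (Real.log j / 2) ≤ 2 * j := by nlinarith
        have e7 : 8 / (q (4 * j) : ℝ) * (2500000 * D0 * ((4 : ℝ) ^ j) ^ 2) ≤ 20000000 * D0 := by
          calc _ ≤ 8 / ((4 : ℝ) ^ j) ^ 2 * (2500000 * D0 * ((4 : ℝ) ^ j) ^ 2) := by gcongr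
            _ = _ := by field_simp; ring
        have e8 : Real.log j / (170 * D0) * Real.exp (Real.log j / 2) *
            (8 / (q (4 * j) : ℝ) * (2500000 * D0 * ((4 : ℝ) ^ j) ^ 2)) ≤
            20000000 / 170 * (Real.log j * Real.exp (Real.log j / 2)) := by
          calc _ ≤ Real.log j / (170 * D0) * Real.exp (Real.log j / 2) * (20000000 * D0) := by
                gcongr
            _ = _ := by field_simp
        rw [e1, e2]
        linarith)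
  have hold : ∑ k ∈ Icc (j + 1) (2 * (j + 1)), Phi q k S ≤ 2 * 8 ^ j := by
    have a1 : ∀ k, 2 * j < k → Phi q k S ≤ 1 := fun k hk => Phi_small h k S fun b hb => by
      refine ⟨(hS.1 b hb).1, (hS.1 b hb).2.trans_le ?_⟩
      have b1 := (h.Qb k).1
      rw [pow4] at b1
      have b2 : (2 : ℝ) ^ 10 * 4 ^ (10 * j) ≤ 4 * 2 ^ (2 * k * 6) := by
        rw [mul_comm 10 j, pow_mul, pow4, ← pow_add]
        exact le_trans (pow_le_pow_right₀ (by norm_num) (by omega))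
          (le_mul_of_one_le_left (by positivity) (by norm_num))
      exact_mod_cast b2.trans b1
    have a2 : ∑ k ∈ Icc (j + 1) (2 * j), Phi q k S ≤ 8 ^ j :=
      le_trans (sum_le_sum_of_subset_of_nonneg (Icc_subset_Icc_left (by omega))
        fun k _ _ => Phi_nonneg k S) hS.2.2
    rw [show 2 * (j + 1) = 2 * j + 1 + 1 by ring, sum_Icc_succ_top (by omega),
      sum_Icc_succ_top (by omega)]
    have a3 := a1 (2 * j + 1) (by omega)
    have a4 := a1 (2 * j + 1 + 1) (by omega)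
    have a5 : (8 : ℝ) ^ 1 ≤ 8 ^ j := pow_le_pow_right₀ (by norm_num) (by omega)
    linarith
  have c3 : Cheap (Q2 q j) (q (4 * j)) (3 / 4) fun t =>
      (∑ k ∈ Icc (j + 1) (2 * (j + 1)), Phi q k (S ∪ lev q G j s t)) / 8 ^ (j + 1) ≤ 1 := by
    refine Cheap.markov _ (fun t => div_nonneg (sum_nonneg fun k _ => Phi_nonneg k _)
      (by positivity)) ?_
    rw [← sum_div, sum_comm, div_le_iff₀ (by positivity)]
    have key : ∀ k ∈ Icc (j + 1) (2 * (j + 1)),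
        ∑ t : Fin (Q2 q j) → Fin (q (4 * j)), Phi q k (S ∪ lev q G j s (ext t)) ≤
          Phi q k S * (3 * (q (4 * j) : ℝ) ^ Q2 q j) := by
      intro k hk
      have hk' := mem_Icc.mp hk
      unfold Phi
      rw [← sum_div, sum_comm, div_mul_eq_mul_div, sum_mul]
      gcongr with c hc
      have hcT : (k, c) ∈ T j := by
        refine mem_product.mpr ⟨hk, mem_Ico.mpr ⟨(mem_Ico.mp hc).1,
          (mem_Ico.mp hc).2.trans_le ?_⟩⟩
        have b1 := (h.Qb k).2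
        have b2 : 64 * ((4 : ℝ) ^ k) ^ 6 ≤ 2 ^ 31 * 4 ^ (12 * j) := by
          rw [mul_comm 12 j, pow_mul, pow4, pow4, ← pow_add, show (64 : ℝ) = 2 ^ 6 by norm_num,
            ← pow_add]
          exact pow_le_pow_right₀ (by norm_num) (by omega)
        exact_mod_cast b1.trans b2
      have hb' : ((fl (Xb q G j k c) (P2 q G j s)).card : ℝ) ≤ 300 * 4 ^ j * D0 := by
        simpa only using hb (k, c) hcT
      have m1 := mgf hQ hp s1 (fl (Xb q G j k c) (P2 q G j s)) (k / (4 * D0)) D0 _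
        (by positivity) hb' (fun γ σ => by
          refine le_trans ?_ (Xb_mult h j k (by omega) c (γ % (q (4 * j) ^ 2 : ℕ)))
          gcongr
          intro a ha
          simp only [mem_fl] at ha ⊢
          refine ⟨ha.1.1, ?_⟩
          rw [← ha.2.1, Int.emod_emod_of_dvd]
          unfold Q2
          push_cast
          exact dvd_mul_right _ _)
      have m2 : Real.exp (k / (4 * D0) * Real.exp (k / (4 * D0) * D0) *
          (8 / (q (4 * j) : ℝ) * (300 * 4 ^ j * D0))) ≤ 3 := by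
        refine le_trans (Real.exp_le_exp.mpr ?_) (Real.exp_one_lt_d9.le.trans (by norm_num))
        have k1 : (k : ℝ) ≤ 2 * (j + 1) := by exact_mod_cast hk'.2
        have k2 : k / (4 * D0) * D0 ≤ (j + 1) / 2 := by
          have : k / (4 * D0) * D0 = k / 4 := by field_simp
          rw [this]; linarith
        calc _ = (k / (4 * D0) * D0) * Real.exp (k / (4 * D0) * D0) *
              (8 / (q (4 * j) : ℝ) * (300 * 4 ^ j)) := by ring
          _ ≤ (j + 1) / 2 * Real.exp ((j + 1) / 2) * (8 / ((4 : ℝ) ^ j) ^ 2 * (300 * 4 ^ j)) := by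
              gcongr
          _ = (j + 1) / 2 * Real.exp ((j + 1) / 2) * 2400 / 4 ^ j := by field_simp; ring
          _ ≤ 1 := by rw [div_le_one (by positivity)]; exact hE2
      calc _ ≤ ∑ t : Fin (Q2 q j) → Fin (q (4 * j)),
            Real.exp (k / (4 * D0) * (fl S fun b => b ≡ c [ZMOD (Q2 q k)]).card) *
            Real.exp (k / (4 * D0) * (fl (fl (Xb q G j k c) (P2 q G j s)) fun a =>
              G (4 * j) (ext t (a % (Q2 q j))) (a / (Q2 q j))).card) := by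
            refine sum_le_sum fun t _ => ?_
            rw [← Real.exp_add, ← mul_add]
            gcongr
            rw [← Nat.cast_add, Nat.cast_le]
            refine le_trans (card_le_card fun a ha => ?_) (card_union_le _ _)
            simp only [mem_fl, mem_union, lev, Xb, P3] at ha ⊢
            tauto
        _ ≤ _ := by
            rw [← mul_sum]
            gcongr
            exact m1.trans (by gcongr)
    refine (sum_le_sum key).trans ?_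
    rw [← sum_mul]
    calc _ ≤ 2 * 8 ^ j * (3 * (q (4 * j) : ℝ) ^ Q2 q j) := by gcongr
      _ = _ := by ring
  have := Z_le_T j
  have h3 : ((Ico (0 : ℤ) (2 ^ 31 * 4 ^ (12 * j))).card : ℝ) * Real.exp (-(20 * j)) ≤
    (T j).card * Real.exp (-(20 * j)) := by gcongr
  obtain ⟨t, t1, t2, t3⟩ := (c1.and (c2.and c3)).exists hp
    ((add_le_add hE (add_le_add (h3.trans hE) (le_refl (3 / 4 : ℝ)))).trans_lt (by norm_num))
  refine ⟨s, t, fun τ hτ => le_trans ?_ (t1 τ hτ), fun n hn => le_trans ?_ (t2 n hn), ?_⟩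
  · gcongr
    intro a ha
    simp only [mem_fl, lev, Xa, P3] at ha ⊢
    tauto
  · gcongr
    intro a ha
    simp only [mem_fl, lev, Xc, P3] at ha ⊢
    tauto
  · rwa [div_le_one (by positivity)] at t3

lemma lev_bas (h : Par q G) (j : ℕ) (hj : 1 ≤ j) (s t : ℤ → ℕ) :
    Bas ((Q2 q j : ℤ) * (q (4 * j) : ℤ) ^ 2)
      (fun a => (G (4 * j) 0 a ∧ P2 q G j s a) ∧ P3 q G j t a) (1024 * 1024 * 1024)
      (8 * q (4 * j) * (8 * q (2 * j + 1)) * (8 * q (4 * j))) := by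
  have hp := (h.prime (4 * j)).pos
  have hr := (h.prime (2 * j + 1)).pos
  have s1 := h.sys (4 * j) (by omega)
  have s2 := h.sys (2 * j + 1) (by omega)
  have := (s1.bas.step (by positivity) hr s2 s).step (by positivity) hp s1 t
  unfold P2 P3 Q2
  push_cast
  exact this

/-- The properties of one level. -/
def Lev (j : ℕ) (S A : Finset ℤ) : Prop :=
  A ⊆ I j ∧
  (∀ n : ℤ, 2 ^ 10 * 4 ^ (10 * j) ≤ n → n < 2 ^ 30 * 4 ^ (10 * j) → ∃ a ∈ A, n - a ∈ A) ∧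
  (∀ n : ℤ, ((fl A fun a => n - a ∈ A).card : ℝ) ≤ 2 ^ 30 * D0) ∧
  (∀ n : ℤ, ((fl A fun a => n - a ∈ S).card : ℝ) ≤ 10 ^ 8 * D0 * j / Real.log j)

lemma step (h : Par q G) (j : ℕ) (hj : 2 ≤ j) (S : Finset ℤ) (hS : Inv q G j S)
    (hE : (T j).card * Real.exp (-(20 * j)) ≤ 1 / 10)
    (hE2 : ((j : ℝ) + 1) / 2 * Real.exp ((j + 1) / 2) * 2400 ≤ 4 ^ j) :
    ∃ A, Lev j S A ∧ Inv q G (j + 1) (S ∪ A) := by
  obtain ⟨s, t, h1, h2, h3⟩ := layer3 h j hj S hS hE hE2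
  have hB := lev_bas h j (by omega) s t
  have hD := D0_pos
  obtain ⟨p1, p2⟩ := h.pb j
  obtain ⟨r1, r2⟩ := h.rb j
  obtain ⟨Q1, Q3⟩ := h.Qb j
  have hp := (h.prime (4 * j)).pos
  have hQ := h.Qpos j
  obtain ⟨M, hM⟩ : ∃ M : ℤ, M = (Q2 q j : ℤ) * (q (4 * j) : ℤ) ^ 2 := ⟨_, rfl⟩
  rw [← hM] at hB
  have hM0 : 0 < M := by rw [hM]; positivity
  have hM1 : (M : ℝ) ≤ 256 * ((4 : ℝ) ^ j) ^ 10 := by
    rw [hM]; push_cast
    calc _ ≤ 64 * ((4 : ℝ) ^ j) ^ 6 * (2 * ((4 : ℝ) ^ j) ^ 2) ^ 2 := by gcongr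
      _ = _ := by ring
  have hM2 : M ≤ 256 * 4 ^ (10 * j) := by
    rw [← pow_mul, mul_comm j] at hM1
    exact_mod_cast hM1
  have hM3 : (((2 : ℤ) ^ 30 * 4 ^ (10 * j) : ℤ) : ℝ) / M + 1 ≤ D0 := by
    refine le_trans ?_ D0_ge
    rw [cast_range, hM]
    push_cast
    gcongr
    rw [div_le_iff₀ (by positivity)]
    have a1 : ((4 : ℝ) ^ j) ^ 6 ≤ Q2 q j := by
      have : 0 ≤ ((4 : ℝ) ^ j) ^ 6 := by positivity
      linarith
    calc _ = 2 ^ 30 * (((4 : ℝ) ^ j) ^ 6 * (((4 : ℝ) ^ j) ^ 2) ^ 2) := by ring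
      _ ≤ 2 ^ 30 * (Q2 q j * (q (4 * j) : ℝ) ^ 2) := by gcongr
      _ = _ := by norm_num
  have hsub : lev q G j s t ⊆ I j := fun a ha => (mem_fl.mp ha).1
  have y0 : (0 : ℤ) < 4 ^ (10 * j) := by positivity
  refine ⟨lev q G j s t, ⟨hsub, fun n hn1 hn2 => ?_, fun n => ?_, fun n => ?_⟩,
    fun b hb => ?_, fun k hk n => ?_, h3⟩
  · obtain ⟨a, a1, a2⟩ := hB.low n
    have e : a ≡ n / 2 + (a - n / 2) % M [ZMOD M] := by
      have := (Int.mod_modEq (a - n / 2) M).symm.add_left (n / 2)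
      simpa using this
    have b1 := Int.emod_nonneg (a - n / 2) hM0.ne'
    have b2 := Int.emod_lt_of_pos (a - n / 2) hM0
    refine ⟨n / 2 + (a - n / 2) % M, mem_fl.mpr ⟨mem_Ico.mpr ⟨?_, ?_⟩, hB.per _ _ e a1⟩,
      mem_fl.mpr ⟨mem_Ico.mpr ⟨?_, ?_⟩, hB.per _ _ (e.sub_left n) a2⟩⟩ <;> omega
  · refine (per_count _ (2 ^ 30 * 4 ^ (10 * j)) M hM0 (by positivity) _ _ D0
      (fun a b hab h1 => ⟨hB.per _ _ hab h1.1, hB.per _ _ (hab.sub_left n) h1.2⟩) (hB.up n)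
      (fun a ha => ?_) hM3).trans (by norm_num)
    have c1 := mem_fl.mp ha
    exact ⟨(mem_I (hsub c1.1)).1, (mem_I (hsub c1.1)).2, (mem_fl.mp c1.1).2, (mem_fl.mp c1.2).2⟩
  · by_cases hn : n ∈ Ico (0 : ℤ) (2 ^ 31 * 4 ^ (12 * j))
    · exact h2 n hn
    · have : (fl (lev q G j s t) fun a => n - a ∈ S) = ∅ := by
        refine eq_empty_of_forall_notMem fun a ha => hn ?_
        have c1 := mem_fl.mp ha
        have c2 := mem_I (hsub c1.1)
        have c3 := hS.1 _ c1.2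
        have c4 : (4 : ℤ) ^ (10 * j) ≤ 4 ^ (12 * j) := pow_le_pow_right₀ (by norm_num) (by omega)
        refine mem_Ico.mpr ⟨?_, ?_⟩ <;> omega
      rw [this]
      have : 0 ≤ Real.log j := Real.log_natCast_nonneg j
      simp only [card_empty, Nat.cast_zero]
      positivity
  · have e : (2 : ℤ) ^ 10 * 4 ^ (10 * (j + 1)) = 2 ^ 30 * 4 ^ (10 * j) := by ring
    rw [e]
    rcases mem_union.mp hb with hb | hb
    · have := hS.1 b hb
      constructor <;> omega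
    · exact mem_I (hsub hb)
  · have c1 := hS.2.1 k (by omega) n
    have c2 : ((fl (lev q G j s t) fun a => G (4 * k) 0 (n - a)).card : ℝ) ≤
        200000 * D0 * 2 ^ (5 * k + j) := by
      by_cases hk2 : k ≤ 2 * j + 2
      · have hp' := (h.prime (4 * k)).pos
        have hm : (0 : ℤ) < (q (4 * k) : ℤ) ^ 2 := by positivity
        have hT : (k, n % (q (4 * k) : ℤ) ^ 2) ∈ T j := by
          refine mem_product.mpr ⟨mem_Icc.mpr ⟨hk, hk2⟩, mem_Ico.mpr ⟨Int.emod_nonneg _ hm.ne',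
            (Int.emod_lt_of_pos _ hm).trans_le ?_⟩⟩
          have b1 := (h.pb k).2
          have b2 : (q (4 * k) : ℝ) ^ 2 ≤ 2 ^ 31 * 4 ^ (12 * j) := by
            calc _ ≤ (2 * ((4 : ℝ) ^ k) ^ 2) ^ 2 := by gcongr
              _ ≤ _ := by
                rw [mul_comm 12 j, pow_mul, pow4, pow4, ← pow_add, ← pow_succ', ← pow_mul]
                exact pow_le_pow_right₀ (by norm_num) (by omega)
          exact_mod_cast b2
        have c3 : ((fl (lev q G j s t) fun a =>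
            G (4 * k) 0 (n % (q (4 * k) : ℤ) ^ 2 - a)).card : ℝ) ≤
            200000 * D0 * 2 ^ (5 * k + j) := by simpa only using h1 _ hT
        refine le_trans ?_ c3
        gcongr
        intro a ha
        exact mem_fl.mpr ⟨(mem_fl.mp ha).1, (h.sys _ (by omega)).per _ _ _
          ((Int.mod_modEq _ _).symm.sub_right a) (mem_fl.mp ha).2⟩
      · refine (per_count _ (2 ^ 30 * 4 ^ (10 * j)) M hM0 (by positivity) _ _ D0 hB.per hB.dens
          (fun a ha => ?_) hM3).trans ?_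
        · have c1 := mem_fl.mp ha
          exact ⟨(mem_I (hsub c1.1)).1, (mem_I (hsub c1.1)).2, (mem_fl.mp c1.1).2⟩
        · have b1 : ((4 : ℝ) ^ j) ^ 5 ≤ 2 ^ (5 * k + j) := by
            rw [pow4]; exact pow_le_pow_right₀ (by norm_num) (by omega)
          calc _ ≤ 8 * (2 * ((4 : ℝ) ^ j) ^ 2) * (8 * (4 * 4 ^ j)) * (8 * (2 * ((4 : ℝ) ^ j) ^ 2))
                * D0 := by gcongr
            _ = 8192 * D0 * ((4 : ℝ) ^ j) ^ 5 := by ring
            _ ≤ _ := by gcongr; norm_num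
    have c3 : (fl (S ∪ lev q G j s t) fun b => G (4 * k) 0 (n - b)).card ≤
        (fl S fun b => G (4 * k) 0 (n - b)).card +
          (fl (lev q G j s t) fun a => G (4 * k) 0 (n - a)).card := by
      refine le_trans (card_le_card fun a ha => ?_) (card_union_le _ _)
      simp only [mem_fl, mem_union] at ha ⊢
      tauto
    have c4 : ((fl (S ∪ lev q G j s t) fun b => G (4 * k) 0 (n - b)).card : ℝ) ≤ _ :=
      Nat.cast_le.mpr c3
    rw [Nat.cast_add] at c4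
    rw [← add_assoc, pow_succ]
    linarith

end Pool.Agent.H46.ET
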